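import Pool.Agent.Lib_helper56.HZ.Defs

namespace Pool.Agent.HZ

/-- The semidirect product of the functions `Q → R` with `Q`. -/
@[ext] structure Aff (R Q : Type*) where
  v : Q → R
  g : Q

namespace Aff

variable {R Q : Type*} [CommRing R] [Group Q]

instance : Mul (Aff R Q) := ⟨fun a b => ⟨fun x => a.v x + b.v (x * a.g), a.g * b.g⟩⟩
instance : One (Aff R Q) := ⟨⟨fun _ => 0, 1⟩⟩
instance : Inv (Aff R Q) := ⟨fun a => ⟨fun x => - a.v (x * a.g⁻¹), a.g⁻¹⟩⟩

theorem mul_v (a b : Aff R Q) (x : Q) : (a * b).v x = a.v x + b.v (x * a.g) := rfl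
theorem mul_g (a b : Aff R Q) : (a * b).g = a.g * b.g := rfl
theorem one_v (x : Q) : (1 : Aff R Q).v x = 0 := rfl
theorem one_g : (1 : Aff R Q).g = 1 := rfl
theorem inv_v (a : Aff R Q) (x : Q) : (a⁻¹).v x = - a.v (x * a.g⁻¹) := rfl
theorem inv_g (a : Aff R Q) : (a⁻¹).g = a.g⁻¹ := rfl

instance : Group (Aff R Q) where
  mul_assoc a b c := by
    ext x
    · simp only [mul_v, mul_g]; rw [add_assoc, mul_assoc]
    · simp only [mul_g, mul_assoc]
  one_mul a := by
    ext x
    · simp only [mul_v, one_v, one_g, mul_one, zero_add]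
    · simp only [mul_g, one_g, one_mul]
  mul_one a := by
    ext x
    · simp only [mul_v, one_v, add_zero]
    · simp only [mul_g, one_g, mul_one]
  inv_mul_cancel a := by
    ext x
    · simp only [mul_v, inv_v, inv_g, one_v, neg_add_cancel]
    · simp only [mul_g, inv_g, one_g, inv_mul_cancel]

/-- The projection to `Q`. -/
def proj : Aff R Q →* Q where
  toFun a := a.g
  map_one' := rfl
  map_mul' _ _ := rfl

theorem proj_apply (a : Aff R Q) : proj a = a.g := rfl

theorem pow_g (a : Aff R Q) (n : ℕ) : (a ^ n).g = a.g ^ n := by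
  have := map_pow (proj (R := R) (Q := Q)) a n
  exact this

/-- Change of coefficients. -/
def map {S : Type*} [CommRing S] (f : R →+* S) : Aff R Q →* Aff S Q where
  toFun a := ⟨fun x => f (a.v x), a.g⟩
  map_one' := by
    ext x
    · show f 0 = 0; exact map_zero f
    · rfl
  map_mul' a b := by
    ext x
    · show f (a.v x + b.v (x * a.g)) = f (a.v x) + f (b.v (x * a.g)); exact map_add f _ _
    · rfl

theorem pow_v_of_g_one (c : Aff R Q) (hc : c.g = 1) (l : ℕ) (x : Q) :
    (c ^ l).v x = (l : R) * c.v x := by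
  induction l with
  | zero => simp [one_v]
  | succ m ih =>
    rw [pow_succ, mul_v, ih, pow_g, hc, one_pow, mul_one]
    push_cast; ring

/-- The key fact on dihedral relators. -/
theorem dih (A B : Aff R Q) (hA : A * A = 1) (hB : B * B = 1) (n : ℕ)
    (hn : (A.g * B.g) ^ n = 1) :
    (∀ x, ((A * B) ^ n).v (x * (A.g * B.g)) = ((A * B) ^ n).v x) ∧
      ∀ x, ((A * B) ^ n).v (x * A.g) = - ((A * B) ^ n).v x := by
  have hg : ((A * B) ^ n).g = 1 := by rw [pow_g, mul_g, hn]
  constructor
  · intro x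
    have h1 : (A * B) * (A * B) ^ n = (A * B) ^ n * (A * B) := (Commute.self_pow (A * B) n).eq
    have h2 := congrArg (fun c => c.v x) h1
    simp only [mul_v ((A * B)) ((A * B) ^ n), mul_v ((A * B) ^ n) (A * B), hg, mul_one] at h2
    rw [mul_g] at h2
    linear_combination h2
  · intro x
    have hA' : A⁻¹ = A := inv_eq_of_mul_eq_one_left hA
    have hB' : B⁻¹ = B := inv_eq_of_mul_eq_one_left hB
    have h0 : A * (A * B) * A⁻¹ = (A * B)⁻¹ := by
      rw [mul_inv_rev, hA', hB', ← mul_assoc A A B, hA, one_mul]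
    have h1 : A * (A * B) ^ n = ((A * B) ^ n)⁻¹ * A := by
      have : A * (A * B) ^ n * A⁻¹ = ((A * B) ^ n)⁻¹ := by
        rw [← conj_pow, h0, inv_pow]
      rw [← this]; group
    have h2 := congrArg (fun c => c.v x) h1
    simp only [mul_v A ((A * B) ^ n), mul_v (((A * B) ^ n)⁻¹) A, inv_v, inv_g, hg, inv_one,
      mul_one] at h2
    linear_combination h2

theorem sq (A : Aff R Q) (hA : A.g * A.g = 1) (x : Q) :
    (A ^ 2).v (x * A.g) = (A ^ 2).v x := by
  have hg : (A ^ 2).g = 1 := by rw [pow_g, _root_.sq, hA]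
  have h1 : A * A ^ 2 = A ^ 2 * A := (Commute.self_pow A 2).eq
  have h2 := congrArg (fun c => c.v x) h1
  simp only [mul_v A (A ^ 2), mul_v (A ^ 2) A, hg, mul_one] at h2
  linear_combination h2

theorem ext_v_zero (c : Aff R Q) (hg : c.g = 1) (hv : ∀ x, c.v x = 0) : c = 1 := by
  ext x
  · exact hv x
  · exact hg

end Aff

instance affFinite {R Q : Type*} [Finite R] [Finite Q] : Finite (Aff R Q) := by
  refine Finite.of_injective (fun a : Aff R Q => (a.v, a.g)) ?_
  intro a b h
  simp only [Prod.mk.injEq] at h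
  exact Aff.ext h.1 h.2

end Pool.Agent.HZ
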