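import Pool.Agent.Lib_helper56.HZ.Core

namespace Pool.Agent.HZ

open Module

/-- The cost of the relator `s^n` (a product of two involutions) over the field `k`. -/
noncomputable def cost (k : Type*) [Field k] {Q : Type*} [Group Q] (n : ℕ) (s : Q) : ℚ :=
  open Classical in
  if ((n / orderOf s : ℕ) : k) = 0 then 0 else 1 / (2 * (orderOf s : ℚ))

/-- The cost for an optional exponent. -/
noncomputable def costO (k : Type*) [Field k] {Q : Type*} [Group Q] : Option ℕ → Q → ℚ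
  | none, _ => 0
  | some n, s => cost k n s

/-- The exponents of the `j`-holes, with `p` for `j = 1`. -/
def hh (T : Data) (j : ℕ) : Option ℕ := if j = 1 then some T.p else T.h j

/-- The total cost. -/
noncomputable def totalCost (k : Type*) [Field k] {Q : Type*} [Group Q] (T : Data) (ρ : Fin 3 → Q) : ℚ :=
  cost k T.q (ρ 1 * ρ 2) + ∑ j ∈ Finset.Icc 1 (T.q / 2), costO k (hh T j) (hole ρ j)
    + ∑ j ∈ Finset.Icc 1 (T.q / 2), costO k (T.r j) (zigzag ρ j)

section Chain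

variable (k : Type*) [Field k] {Q : Type*} [Group Q] (ρ : Fin 3 → Q)

/-- The first component as a linear map. -/
def Dl (w : FreeGroup (Fin 3)) : (Fin 3 → Q → k) →ₗ[k] (Q → k) where
  toFun z := (lft ρ z w).v
  map_add' z z' := funext (lft_add ρ z z' w)
  map_smul' c z := funext (lft_smul ρ c z w)

theorem Dl_apply (w : FreeGroup (Fin 3)) (z : Fin 3 → Q → k) : Dl k ρ w z = (lft ρ z w).v := rfl

/-- The space of lifts satisfying all relators. -/
def Der (T : Data) : Submodule k (Fin 3 → Q → k) := ⨅ w ∈ rels T, LinearMap.ker (Dl k ρ w)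

theorem mem_Der (T : Data) (z : Fin 3 → Q → k) :
    z ∈ Der k ρ T ↔ ∀ w ∈ rels T, (lft ρ z w).v = 0 := by
  simp only [Der, Submodule.mem_iInf, LinearMap.mem_ker, Dl_apply]

variable [Finite Q]

theorem dih_step (S : Submodule k (Fin 3 → Q → k)) (w0 : FreeGroup (Fin 3)) (n : ℕ)
    (A B : (Fin 3 → Q → k) → Aff k Q) (a b : Q)
    (hA : ∀ z ∈ S, A z * A z = 1 ∧ B z * B z = 1 ∧ lft ρ z w0 = A z * B z ∧ (A z).g = a ∧
      (B z).g = b)
    (ha1 : a ≠ 1) (hb1 : b ≠ 1) (hn : (a * b) ^ n = 1) :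
    (finrank k S : ℚ) ≤ (finrank k (S ⊓ LinearMap.ker (Dl k ρ (w0 ^ n)) : Submodule k _) : ℚ)
      + (Nat.card Q : ℚ) * cost k n (a * b) := by
  have h0 := hA 0 (Submodule.zero_mem S)
  have ha : a * a = 1 := by
    have := congrArg Aff.g h0.1
    rwa [Aff.mul_g, h0.2.2.2.1, Aff.one_g] at this
  have hb : b * b = 1 := by
    have := congrArg Aff.g h0.2.1
    rwa [Aff.mul_g, h0.2.2.2.2, Aff.one_g] at this
  unfold cost
  split_ifs with hc
  · have h1 : S ≤ LinearMap.ker (Dl k ρ (w0 ^ n)) := by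
      intro z hz
      obtain ⟨_, _, h3, h4, h5⟩ := hA z hz
      rw [LinearMap.mem_ker, Dl_apply, map_pow]
      have ho : orderOf (a * b) ∣ n := orderOf_dvd_of_pow_eq_one hn
      obtain ⟨l, hl⟩ := ho
      have hl' : n / orderOf (a * b) = l := by
        rw [hl, Nat.mul_div_cancel_left _ (orderOf_pos _)]
      rw [hl'] at hc
      have h6 : (lft ρ z w0 ^ orderOf (a * b)).g = 1 := by
        rw [Aff.pow_g, h3, Aff.mul_g, h4, h5, pow_orderOf_eq_one]
      funext x
      rw [hl, pow_mul, Aff.pow_v_of_g_one _ h6, hc, zero_mul]; rfl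
    rw [inf_eq_left.2 h1, mul_zero, add_zero]
  · have h1 := finrank_step S (Dl k ρ (w0 ^ n)) (U k (a * b) a) (by
      intro z hz
      obtain ⟨h1, h2, h3, h4, h5⟩ := hA z hz
      have h6 := Aff.dih (A z) (B z) h1 h2 n (by rw [h4, h5]; exact hn)
      rw [h4, h5] at h6
      rw [Dl_apply, map_pow, h3]
      exact h6)
    have h2 := finrank_U_le (k := k) ha hb ha1 hb1
    have h3 : (finrank k S : ℚ) ≤
        (finrank k (S ⊓ LinearMap.ker (Dl k ρ (w0 ^ n)) : Submodule k _) : ℚ)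
        + (finrank k (U k (a * b) a) : ℚ) := by exact_mod_cast h1
    linarith

theorem sq_step (S : Submodule k (Fin 3 → Q → k)) (i : Fin 3) (h : ρ i * ρ i = 1)
    (h1 : ρ i ≠ 1) :
    (finrank k S : ℚ) ≤
      (finrank k (S ⊓ LinearMap.ker (Dl k ρ (FreeGroup.of i ^ 2)) : Submodule k _) : ℚ)
      + (Nat.card Q : ℚ) * (1 / 2) := by
  have h2 := finrank_step S (Dl k ρ (FreeGroup.of i ^ 2)) (Ui k (ρ i)) (by
    intro z _
    rw [Dl_apply, map_pow]
    intro x
    have h3 := Aff.sq (lft ρ z (FreeGroup.of i)) (by rw [lft_of]; exact h) x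
    rw [lft_of] at h3 ⊢
    exact h3)
  have h3 := finrank_Ui_le (k := k) h h1
  have h4 : (finrank k S : ℚ) ≤
      (finrank k (S ⊓ LinearMap.ker (Dl k ρ (FreeGroup.of i ^ 2)) : Submodule k _) : ℚ)
      + (finrank k (Ui k (ρ i)) : ℚ) := by exact_mod_cast h2
  linarith

theorem iter_step {ι : Type*} (I : Finset ι) (S0 : Submodule k (Fin 3 → Q → k))
    (L : ι → ((Fin 3 → Q → k) →ₗ[k] (Q → k))) (c : ι → ℚ)
    (h : ∀ t ∈ I, ∀ S ≤ S0, (finrank k S : ℚ) ≤
      (finrank k (S ⊓ LinearMap.ker (L t) : Submodule k _) : ℚ) + c t) :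
    (finrank k S0 : ℚ) ≤
      (finrank k (S0 ⊓ ⨅ t ∈ I, LinearMap.ker (L t) : Submodule k _) : ℚ) + ∑ t ∈ I, c t := by
  classical
  induction I using Finset.induction_on with
  | empty =>
    have h5 : (⨅ t ∈ (∅ : Finset ι), LinearMap.ker (L t)) = ⊤ := by simp
    rw [h5, inf_top_eq, Finset.sum_empty, add_zero]
  | insert a s ha ih =>
    have h1 := ih (fun t ht => h t (Finset.mem_insert_of_mem ht))
    have h2 := h a (Finset.mem_insert_self _ _) (S0 ⊓ ⨅ t ∈ s, LinearMap.ker (L t)) inf_le_left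
    have h3 : (S0 ⊓ ⨅ t ∈ s, LinearMap.ker (L t)) ⊓ LinearMap.ker (L a)
        = S0 ⊓ ⨅ t ∈ insert a s, LinearMap.ker (L t) := by
      rw [Finset.iInf_insert, inf_assoc, inf_comm (LinearMap.ker (L a))]
    rw [h3] at h2
    rw [Finset.sum_insert ha]
    linarith

/-- The relator maps for the holes and for the zigzags. -/
def Lo (w : ℕ → FreeGroup (Fin 3)) (e : ℕ → Option ℕ) (j : ℕ) :
    (Fin 3 → Q → k) →ₗ[k] (Q → k) :=
  match e j with
  | none => 0
  | some n => Dl k ρ (w j ^ n)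

theorem der_bound (T : Data) (hq2 : 2 ≤ T.q)
    (h1 : ∀ i, ρ i ≠ 1) (h02 : ρ 0 * ρ 2 ≠ 1)
    (hrel : ∀ w ∈ rels T, FreeGroup.lift ρ w = 1) :
    (Nat.card Q : ℚ) * (5 / 4 - totalCost k T ρ) ≤ (finrank k (Der k ρ T) : ℚ) := by
  classical
  -- relations in `Q`
  have hsq : ∀ i, ρ i * ρ i = 1 := by
    intro i
    have := hrel (FreeGroup.of i ^ 2) (Or.inl ⟨i, rfl⟩)
    simpa [_root_.sq] using this
  have h02' : (ρ 0 * ρ 2) ^ 2 = 1 := by
    have := hrel ((FreeGroup.of 0 * FreeGroup.of 2) ^ 2) (Or.inr (Or.inr (Or.inr (Or.inl rfl))))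
    simpa using this
  have hq' : (ρ 1 * ρ 2) ^ T.q = 1 := by
    have := hrel ((FreeGroup.of 1 * FreeGroup.of 2) ^ T.q) (Or.inr (Or.inr (Or.inl rfl)))
    simpa using this
  have hhole : ∀ j n, 1 ≤ j → j ≤ T.q / 2 → hh T j = some n → hole ρ j ^ n = 1 := by
    intro j n hj1 hj2 hn
    unfold hh at hn
    split_ifs at hn with h
    · subst h
      have : T.p = n := by simpa using hn
      subst this
      have := hrel ((FreeGroup.of 0 * FreeGroup.of 1) ^ T.p) (Or.inr (Or.inl rfl))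
      simpa [hole] using this
    · have := hrel (hole FreeGroup.of j ^ n)
        (Or.inr (Or.inr (Or.inr (Or.inr (Or.inl ⟨j, n, by omega, hj2, hn, rfl⟩)))))
      rw [map_pow, map_hole] at this
      simpa using this
  have hzig : ∀ j n, 1 ≤ j → j ≤ T.q / 2 → T.r j = some n → zigzag ρ j ^ n = 1 := by
    intro j n hj1 hj2 hn
    have := hrel (zigzag FreeGroup.of j ^ n)
      (Or.inr (Or.inr (Or.inr (Or.inr (Or.inr ⟨j, n, hj1, hj2, hn, rfl⟩)))))
    rw [map_pow, map_zigzag] at this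
    simpa using this
  -- the chain of submodules
  have e0 : (finrank k (⊤ : Submodule k (Fin 3 → Q → k)) : ℚ) = 3 * Nat.card Q := by
    have : Fintype Q := Fintype.ofFinite Q
    rw [finrank_top, Module.finrank_pi_fintype]
    simp
  have e1 := sq_step k ρ ⊤ 0 (hsq 0) (h1 0)
  set S1 : Submodule k (Fin 3 → Q → k) := ⊤ ⊓ LinearMap.ker (Dl k ρ (FreeGroup.of 0 ^ 2)) with hS1
  have e2 := sq_step k ρ S1 1 (hsq 1) (h1 1)
  set S2 : Submodule k (Fin 3 → Q → k) := S1 ⊓ LinearMap.ker (Dl k ρ (FreeGroup.of 1 ^ 2)) with hS2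
  have e3 := sq_step k ρ S2 2 (hsq 2) (h1 2)
  set S3 : Submodule k (Fin 3 → Q → k) := S2 ⊓ LinearMap.ker (Dl k ρ (FreeGroup.of 2 ^ 2)) with hS3
  -- for z in S3 the lifts are involutions
  have inv : ∀ z ∈ S3, ∀ i, lft ρ z (FreeGroup.of i) * lft ρ z (FreeGroup.of i) = 1 := by
    intro z hz i
    have hz3 : (lft ρ z (FreeGroup.of i ^ 2)).v = 0 := by
      have hz' := hz
      rw [hS3, hS2, hS1] at hz'
      simp only [Submodule.mem_inf, LinearMap.mem_ker, Dl_apply] at hz'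
      fin_cases i
      · exact hz'.1.1.2
      · exact hz'.1.2
      · exact hz'.2
    rw [map_pow, _root_.sq] at hz3
    refine Aff.ext_v_zero _ ?_ (fun x => congrFun hz3 x)
    rw [Aff.mul_g, lft_of]; exact hsq i
  have e4 := dih_step k ρ S3 (FreeGroup.of 0 * FreeGroup.of 2) 2
    (fun z => lft ρ z (FreeGroup.of 0)) (fun z => lft ρ z (FreeGroup.of 2)) (ρ 0) (ρ 2)
    (fun z hz => ⟨inv z hz 0, inv z hz 2, map_mul _ _ _, by rw [lft_of], by rw [lft_of]⟩)
    (h1 0) (h1 2) h02'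
  have c4 : cost k 2 (ρ 0 * ρ 2) ≤ 1 / 4 := by
    have ho : orderOf (ρ 0 * ρ 2) = 2 := orderOf_eq_prime h02' h02
    unfold cost
    split_ifs
    · norm_num
    · rw [ho]; norm_num
  set S4 : Submodule k (Fin 3 → Q → k) :=
    S3 ⊓ LinearMap.ker (Dl k ρ ((FreeGroup.of 0 * FreeGroup.of 2) ^ 2)) with hS4
  have hS43 : S4 ≤ S3 := inf_le_left
  have inv4 : ∀ z ∈ S4, (lft ρ z (FreeGroup.of 0) * lft ρ z (FreeGroup.of 2)) *
      (lft ρ z (FreeGroup.of 0) * lft ρ z (FreeGroup.of 2)) = 1 := by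
    intro z hz
    have hz3 : (lft ρ z ((FreeGroup.of 0 * FreeGroup.of 2) ^ 2)).v = 0 := by
      have hz' := hz
      rw [hS4] at hz'
      simp only [Submodule.mem_inf, LinearMap.mem_ker, Dl_apply] at hz'
      exact hz'.2
    rw [map_pow, map_mul, _root_.sq] at hz3
    refine Aff.ext_v_zero _ ?_ (fun x => congrFun hz3 x)
    rw [Aff.mul_g, Aff.mul_g, lft_of, lft_of, ← _root_.sq]; exact h02'
  have e5 := dih_step k ρ S4 (FreeGroup.of 1 * FreeGroup.of 2) T.q
    (fun z => lft ρ z (FreeGroup.of 1)) (fun z => lft ρ z (FreeGroup.of 2)) (ρ 1) (ρ 2)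
    (fun z hz => ⟨inv z (hS43 hz) 1, inv z (hS43 hz) 2, map_mul _ _ _, by rw [lft_of],
      by rw [lft_of]⟩)
    (h1 1) (h1 2) hq'
  set S5 : Submodule k (Fin 3 → Q → k) :=
    S4 ⊓ LinearMap.ker (Dl k ρ ((FreeGroup.of 1 * FreeGroup.of 2) ^ T.q)) with hS5
  have hS54 : S5 ≤ S4 := inf_le_left
  -- holes
  have e6 := iter_step k (Finset.Icc 1 (T.q / 2)) S5
    (Lo k ρ (fun j => hole FreeGroup.of j) (hh T))
    (fun j => (Nat.card Q : ℚ) * costO k (hh T j) (hole ρ j)) (by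
      intro j hj S hS
      rw [Finset.mem_Icc] at hj
      unfold Lo costO
      rcases hn : hh T j with _ | n
      · simp only [mul_zero, add_zero]
        rw [LinearMap.ker_zero, inf_top_eq]
      · simp only
        have hj' := hhole j n hj.1 hj.2 hn
        have hsplit : hole ρ j = ρ 0 * (ρ 1 * (ρ 2 * ρ 1) ^ (j - 1)) := by
          unfold hole; rw [mul_assoc]
        rw [hsplit] at hj' ⊢
        refine dih_step k ρ S (hole FreeGroup.of j) n
          (fun z => lft ρ z (FreeGroup.of 0))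
          (fun z => lft ρ z (FreeGroup.of 1) *
            (lft ρ z (FreeGroup.of 2) * lft ρ z (FreeGroup.of 1)) ^ (j - 1)) _ _ ?_ (h1 0)
          (refl_ne (hsq 2) (hsq 1) (h1 2) (h1 1) (j - 1)) hj'
        intro z hz
        have hz3 : z ∈ S3 := hS43 (hS54 (hS hz))
        refine ⟨inv z hz3 0, refl_conj (inv z hz3 2) (inv z hz3 1) _, ?_, by rw [lft_of], ?_⟩
        · unfold hole
          rw [map_mul, map_mul, map_pow, map_mul, mul_assoc]
        · rw [Aff.mul_g, Aff.pow_g, Aff.mul_g, lft_of, lft_of])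
  set S6 : Submodule k (Fin 3 → Q → k) :=
    S5 ⊓ ⨅ j ∈ Finset.Icc 1 (T.q / 2),
      LinearMap.ker (Lo k ρ (fun j => hole FreeGroup.of j) (hh T) j) with hS6
  have hS65 : S6 ≤ S5 := inf_le_left
  have e7 := iter_step k (Finset.Icc 1 (T.q / 2)) S6
    (Lo k ρ (fun j => zigzag FreeGroup.of j) T.r)
    (fun j => (Nat.card Q : ℚ) * costO k (T.r j) (zigzag ρ j)) (by
      intro j hj S hS
      rw [Finset.mem_Icc] at hj
      unfold Lo costO
      rcases hn : T.r j with _ | n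
      · simp only [mul_zero, add_zero]
        rw [LinearMap.ker_zero, inf_top_eq]
      · simp only
        have hj' := hzig j n hj.1 hj.2 hn
        have hsplit : zigzag ρ j = (ρ 0 * ρ 2) * (ρ 2 * (ρ 1 * ρ 2) ^ j) := by
          unfold zigzag
          rw [mul_assoc (ρ 0) (ρ 2), ← mul_assoc (ρ 2) (ρ 2), hsq 2, one_mul]
        rw [hsplit] at hj' ⊢
        refine dih_step k ρ S (zigzag FreeGroup.of j) n
          (fun z => lft ρ z (FreeGroup.of 0) * lft ρ z (FreeGroup.of 2))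
          (fun z => lft ρ z (FreeGroup.of 2) *
            (lft ρ z (FreeGroup.of 1) * lft ρ z (FreeGroup.of 2)) ^ j) _ _ ?_ h02
          (refl_ne (hsq 1) (hsq 2) (h1 1) (h1 2) j) hj'
        intro z hz
        have hz4 : z ∈ S4 := hS54 (hS65 (hS hz))
        have hz3 : z ∈ S3 := hS43 hz4
        refine ⟨inv4 z hz4, refl_conj (inv z hz3 1) (inv z hz3 2) _, ?_, ?_, ?_⟩
        · unfold zigzag
          rw [map_mul, map_pow, map_mul, mul_assoc (lft ρ z (FreeGroup.of 0)),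
            ← mul_assoc (lft ρ z (FreeGroup.of 2)) (lft ρ z (FreeGroup.of 2)), inv z hz3 2,
            one_mul]
        · rw [Aff.mul_g, lft_of, lft_of]
        · rw [Aff.mul_g, Aff.pow_g, Aff.mul_g, lft_of, lft_of])
  set S7 : Submodule k (Fin 3 → Q → k) :=
    S6 ⊓ ⨅ j ∈ Finset.Icc 1 (T.q / 2),
      LinearMap.ker (Lo k ρ (fun j => zigzag FreeGroup.of j) T.r j) with hS7
  have hfin : S7 ≤ Der k ρ T := by
    intro z hz
    rw [mem_Der]
    have hz6 : z ∈ S6 := (inf_le_left : S7 ≤ S6) hz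
    have hz5 : z ∈ S5 := hS65 hz6
    have hz4 : z ∈ S4 := hS54 hz5
    have hz3 : z ∈ S3 := hS43 hz4
    have hzz : ∀ j ∈ Finset.Icc 1 (T.q / 2),
        Lo k ρ (fun j => zigzag FreeGroup.of j) T.r j z = 0 := by
      have hz' := hz
      rw [hS7] at hz'
      simp only [Submodule.mem_inf, Submodule.mem_iInf, LinearMap.mem_ker] at hz'
      exact hz'.2
    have hzh : ∀ j ∈ Finset.Icc 1 (T.q / 2),
        Lo k ρ (fun j => hole FreeGroup.of j) (hh T) j z = 0 := by
      have hz' := hz6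
      rw [hS6] at hz'
      simp only [Submodule.mem_inf, Submodule.mem_iInf, LinearMap.mem_ker] at hz'
      exact hz'.2
    rintro w (⟨i, rfl⟩ | rfl | rfl | rfl | ⟨j, n, hj1, hj2, hn, rfl⟩ | ⟨j, n, hj1, hj2, hn, rfl⟩)
    · have := inv z hz3 i
      rw [map_pow, _root_.sq, this]; rfl
    · have hk : 1 ≤ T.q / 2 := by omega
      have := hzh 1 (Finset.mem_Icc.2 ⟨le_refl 1, hk⟩)
      simp only [Lo, hh, if_true, Dl_apply] at this
      simpa [hole] using this
    · have hz' := hz5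
      rw [hS5] at hz'
      simp only [Submodule.mem_inf, LinearMap.mem_ker, Dl_apply] at hz'
      exact hz'.2
    · have hz' := hz4
      rw [hS4] at hz'
      simp only [Submodule.mem_inf, LinearMap.mem_ker, Dl_apply] at hz'
      exact hz'.2
    · have := hzh j (Finset.mem_Icc.2 ⟨by omega, hj2⟩)
      have hne : j ≠ 1 := by omega
      simp only [Lo, hh, if_neg hne, hn, Dl_apply] at this
      exact this
    · have := hzz j (Finset.mem_Icc.2 ⟨hj1, hj2⟩)
      simp only [Lo, hn, Dl_apply] at this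
      exact this
  have hmono : (finrank k S7 : ℚ) ≤ finrank k (Der k ρ T) := by
    exact_mod_cast Submodule.finrank_mono hfin
  unfold totalCost
  rw [← Finset.mul_sum] at e6 e7
  have hcard : (0 : ℚ) ≤ Nat.card Q := Nat.cast_nonneg _
  have h8 : (Nat.card Q : ℚ) * cost k 2 (ρ 0 * ρ 2) ≤ (Nat.card Q : ℚ) * (1 / 4) :=
    mul_le_mul_of_nonneg_left c4 hcard
  nlinarith [e0, e1, e2, e3, e4, e5, e6, e7, hmono, h8]

end Chain

end Pool.Agent.HZ
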