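import Pool.Agent.Lib_helper56.HZ.Dim

namespace Pool.Agent.HZ

open Module

section Lift

variable {R : Type*} [CommRing R] {Q : Type*} [Group Q]

/-- The lift of `ρ : Fin 3 → Q` to the semidirect product given by `z`. -/
def lft (ρ : Fin 3 → Q) (z : Fin 3 → Q → R) : FreeGroup (Fin 3) →* Aff R Q :=
  FreeGroup.lift (fun i => (⟨z i, ρ i⟩ : Aff R Q))

theorem lft_of (ρ : Fin 3 → Q) (z : Fin 3 → Q → R) (i : Fin 3) :
    lft ρ z (FreeGroup.of i) = ⟨z i, ρ i⟩ := by
  simp [lft]

theorem lft_g (ρ : Fin 3 → Q) (z : Fin 3 → Q → R) (w : FreeGroup (Fin 3)) :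
    (lft ρ z w).g = FreeGroup.lift ρ w := by
  have h : (Aff.proj.comp (lft ρ z) : FreeGroup (Fin 3) →* Q) = FreeGroup.lift ρ := by
    ext i
    simp [lft_of, Aff.proj_apply]
  exact DFunLike.congr_fun h w

theorem lft_add (ρ : Fin 3 → Q) (z z' : Fin 3 → Q → R) (w : FreeGroup (Fin 3)) :
    ∀ x, (lft ρ (z + z') w).v x = (lft ρ z w).v x + (lft ρ z' w).v x := by
  induction w using FreeGroup.induction_on with
  | C1 => intro x; simp [Aff.one_v]
  | of i => intro x; simp [lft_of]
  | inv_of i _ => intro x; simp only [map_inv, Aff.inv_v, lft_of, Pi.add_apply]; ring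
  | mul a b iha ihb =>
    intro x
    simp only [map_mul, Aff.mul_v, iha, ihb, lft_g]
    ring

theorem lft_smul (ρ : Fin 3 → Q) (c : R) (z : Fin 3 → Q → R) (w : FreeGroup (Fin 3)) :
    ∀ x, (lft ρ (c • z) w).v x = c * (lft ρ z w).v x := by
  induction w using FreeGroup.induction_on with
  | C1 => intro x; simp [Aff.one_v]
  | of i => intro x; simp [lft_of]
  | inv_of i _ => intro x; simp only [map_inv, Aff.inv_v, lft_of, Pi.smul_apply, smul_eq_mul]; ring
  | mul a b iha ihb =>
    intro x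
    simp only [map_mul, Aff.mul_v, iha, ihb, lft_g]
    ring

end Lift

theorem map_hole {G H : Type*} [Group G] [Group H] (f : G →* H) (x : Fin 3 → G) (j : ℕ) :
    f (hole x j) = hole (fun i => f (x i)) j := by
  simp [hole]

theorem map_zigzag {G H : Type*} [Group G] [Group H] (f : G →* H) (x : Fin 3 → G) (j : ℕ) :
    f (zigzag x j) = zigzag (fun i => f (x i)) j := by
  simp [zigzag]

/-- words of the form y (x y)^m -/
theorem refl_conj {G : Type*} [Group G] {x y : G} (hx : x * x = 1) (hy : y * y = 1) (m : ℕ) :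
    y * (x * y) ^ m * (y * (x * y) ^ m) = 1 := by
  have hx' : x⁻¹ = x := inv_eq_of_mul_eq_one_left hx
  have hy' : y⁻¹ = y := inv_eq_of_mul_eq_one_left hy
  have h1 : y * (x * y) ^ m * y = ((x * y) ^ m)⁻¹ := by
    have h2 : y * (x * y) * y⁻¹ = (x * y)⁻¹ := by
      rw [mul_inv_rev, hx', hy', mul_assoc, mul_assoc, hy, mul_one]
    have h3 : y * (x * y) ^ m * y⁻¹ = ((x * y) ^ m)⁻¹ := by
      rw [← conj_pow, h2, inv_pow]
    rwa [hy'] at h3
  rw [← mul_assoc, h1, inv_mul_cancel]

theorem refl_ne {G : Type*} [Group G] {x y : G} (hx : x * x = 1) (hy : y * y = 1)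
    (hx1 : x ≠ 1) (hy1 : y ≠ 1) (m : ℕ) : y * (x * y) ^ m ≠ 1 := by
  have key : ∀ m : ℕ, ∃ c : G, y * (x * y) ^ m = c * x * c⁻¹ ∨ y * (x * y) ^ m = c * y * c⁻¹ := by
    intro m
    induction m using Nat.strong_induction_on with
    | _ m ih =>
      rcases Nat.lt_or_ge m 2 with h | h
      · interval_cases m
        · exact ⟨1, Or.inr (by simp)⟩
        · refine ⟨y, Or.inl ?_⟩
          have hy' : y⁻¹ = y := inv_eq_of_mul_eq_one_left hy
          rw [hy', pow_one, mul_assoc]
      · obtain ⟨c, hc⟩ := ih (m - 2) (by omega)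
        have hx' : x⁻¹ = x := inv_eq_of_mul_eq_one_left hx
        have hy' : y⁻¹ = y := inv_eq_of_mul_eq_one_left hy
        -- y (xy)^m = (yx) (y (xy)^(m-2)) (xy)
        have h2 : y * (x * y) ^ m = (y * x) * (y * (x * y) ^ (m - 2)) * (x * y) := by
          obtain ⟨n, rfl⟩ : ∃ n, m = n + 2 := ⟨m - 2, by omega⟩
          rw [Nat.add_sub_cancel, pow_succ, pow_succ']
          simp only [mul_assoc]
        have h3 : (x * y) = (y * x)⁻¹ := by rw [mul_inv_rev, hx', hy']
        refine ⟨y * x * c, ?_⟩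
        rcases hc with hc | hc
        · left
          rw [h2, hc, mul_inv_rev (y * x) c, ← h3]; simp only [mul_assoc]
        · right
          rw [h2, hc, mul_inv_rev (y * x) c, ← h3]; simp only [mul_assoc]
  intro h
  obtain ⟨c, hc⟩ := key m
  rw [h] at hc
  rcases hc with hc | hc
  · apply hx1
    have : x = c⁻¹ * (c * x * c⁻¹) * c := by group
    rw [this, ← hc]; group
  · apply hy1
    have : y = c⁻¹ * (c * y * c⁻¹) * c := by group
    rw [this, ← hc]; group

end Pool.Agent.HZ
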