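import Mathlib

/-! Regular polyhedra with prescribed hole and zigzag lengths: definitions. -/

namespace Pool.Agent.HZ

open FreeGroup

/-- Parameter tuples: type `{p,q}`, hole lengths `h j` (used for `2 ≤ j ≤ q/2`) and zigzag
lengths `r j` (used for `1 ≤ j ≤ q/2`); the value `none` means: no prescription. -/
structure Data where
  p : ℕ
  q : ℕ
  h : ℕ → Option ℕ
  r : ℕ → Option ℕ

section Words

variable {G : Type*} [Group G]

/-- The word `x0 x1 (x2 x1)^(j-1)`; its order is the length of the `j`-holes. -/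
def hole (x : Fin 3 → G) (j : ℕ) : G := x 0 * x 1 * (x 2 * x 1) ^ (j - 1)

/-- The word `x0 (x1 x2)^j`; its order is the length of the `j`-zigzags. -/
def zigzag (x : Fin 3 → G) (j : ℕ) : G := x 0 * (x 1 * x 2) ^ j

end Words

/-- The defining relators of `Γ{p,q | h_2,...,h_k}_{r_1,...,r_k}` with `k = q/2` (rounded down). -/
def rels (T : Data) : Set (FreeGroup (Fin 3)) :=
  {w | (∃ i : Fin 3, w = FreeGroup.of i ^ 2) ∨
    w = (FreeGroup.of 0 * FreeGroup.of 1) ^ T.p ∨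
    w = (FreeGroup.of 1 * FreeGroup.of 2) ^ T.q ∨
    w = (FreeGroup.of 0 * FreeGroup.of 2) ^ 2 ∨
    (∃ j n : ℕ, 2 ≤ j ∧ j ≤ T.q / 2 ∧ T.h j = some n ∧ w = hole FreeGroup.of j ^ n) ∨
    (∃ j n : ℕ, 1 ≤ j ∧ j ≤ T.q / 2 ∧ T.r j = some n ∧ w = zigzag FreeGroup.of j ^ n)}

/-- The group `Γ{p,q | h_2,...,h_k}_{r_1,...,r_k}`. -/
abbrev Gam (T : Data) : Type := PresentedGroup (rels T)

/-- The distinguished generators `ρ0, ρ1, ρ2` of `Γ`. -/
def gen (T : Data) (i : Fin 3) : Gam T := PresentedGroup.of i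

/-- `1/n` for a prescribed length `n`, and `0` if nothing is prescribed. -/
def recip : Option ℕ → ℚ
  | none => 0
  | some n => 1 / (n : ℚ)

/-- The sum `1/p + 1/q + ∑ 1/h_j + ∑ 1/r_j` over all prescribed lengths. -/
def lengthSum (T : Data) : ℚ :=
  1 / (T.p : ℚ) + 1 / (T.q : ℚ) + ∑ j ∈ Finset.Icc 2 (T.q / 2), recip (T.h j)
    + ∑ j ∈ Finset.Icc 1 (T.q / 2), recip (T.r j)

/-- The prescribed lengths are the true orders in the group with generators `x`, the three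
generators are nontrivial, and `x0 x2` is nontrivial. -/
def TrueOrders (T : Data) {G : Type*} [Group G] (x : Fin 3 → G) : Prop :=
  (∀ i, x i ≠ 1) ∧ x 0 * x 2 ≠ 1 ∧ orderOf (x 0 * x 1) = T.p ∧ orderOf (x 1 * x 2) = T.q ∧
    (∀ j n, 2 ≤ j → j ≤ T.q / 2 → T.h j = some n → orderOf (hole x j) = n) ∧
    (∀ j n, 1 ≤ j → j ≤ T.q / 2 → T.r j = some n → orderOf (zigzag x j) = n)

end Pool.Agent.HZ
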