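import Pool.Agent.Lib_helper56.HZ.Aff

namespace Pool.Agent.HZ

open Module

section

variable {k : Type*} [Field k] {Q : Type*} [Group Q] [Finite Q]

/-- Functions determined by their values on a transversal. -/
theorem finrank_le_of_sub (K : Subgroup Q) (W : Submodule k (Q → k))
    (hW : ∀ g ∈ K, ∃ ε : k, ∀ y ∈ W, ∀ x, y (x * g) = ε * y x) :
    finrank k W * Nat.card K ≤ Nat.card Q := by
  classical
  let f : W →ₗ[k] (Q ⧸ K → k) :=
    { toFun := fun y c => y.1 c.out
      map_add' := fun _ _ => rfl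
      map_smul' := fun _ _ => rfl }
  have hf : Function.Injective f := by
    rw [← LinearMap.ker_eq_bot, LinearMap.ker_eq_bot']
    intro y hy
    ext x
    have h1 : (QuotientGroup.mk (s := K) x).out⁻¹ * x ∈ K := by
      rw [← QuotientGroup.eq, QuotientGroup.out_eq']
    obtain ⟨ε, hε⟩ := hW _ h1
    have h2 := hε y.1 y.2 (QuotientGroup.mk (s := K) x).out
    rw [mul_inv_cancel_left] at h2
    have h3 : y.1 (QuotientGroup.mk (s := K) x).out = 0 := congrFun hy (QuotientGroup.mk (s := K) x)
    rw [h3, mul_zero] at h2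
    exact h2
  have h4 := LinearMap.finrank_le_finrank_of_injective hf
  have : Fintype (Q ⧸ K) := Fintype.ofFinite _
  rw [Module.finrank_fintype_fun_eq_card, ← Nat.card_eq_fintype_card] at h4
  calc finrank k W * Nat.card K ≤ Nat.card (Q ⧸ K) * Nat.card K := Nat.mul_le_mul_right _ h4
    _ = Nat.card Q := (Subgroup.card_eq_card_quotient_mul_card_subgroup K).symm

/-- The space of functions invariant under `s` and anti-invariant under `a`. -/
def U (k : Type*) [Field k] {Q : Type*} [Group Q] (s a : Q) : Submodule k (Q → k) where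
  carrier := {y | (∀ x, y (x * s) = y x) ∧ ∀ x, y (x * a) = - y x}
  add_mem' := by
    rintro y z ⟨h1, h2⟩ ⟨h3, h4⟩
    refine ⟨fun x => ?_, fun x => ?_⟩
    · simp only [Pi.add_apply, h1, h3]
    · simp only [Pi.add_apply, h2, h4]; ring
  zero_mem' := ⟨fun _ => rfl, fun _ => by simp⟩
  smul_mem' := by
    rintro c y ⟨h1, h2⟩
    refine ⟨fun x => ?_, fun x => ?_⟩
    · simp only [Pi.smul_apply, h1]
    · simp only [Pi.smul_apply, h2, smul_eq_mul]; ring

/-- The space of functions invariant under `a`. -/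
def Ui (k : Type*) [Field k] {Q : Type*} [Group Q] (a : Q) : Submodule k (Q → k) where
  carrier := {y | ∀ x, y (x * a) = y x}
  add_mem' := by
    rintro y z h1 h3 x
    simp only [Pi.add_apply, h1 x, h3 x]
  zero_mem' := fun _ => rfl
  smul_mem' := by
    rintro c y h1 x
    simp only [Pi.smul_apply, h1 x]

theorem scalar_closure (W : Submodule k (Q → k)) (S : Set Q)
    (hS : ∀ g ∈ S, ∃ ε : k, ∀ y ∈ W, ∀ x, y (x * g) = ε * y x)
    (hSi : ∀ g ∈ S, g⁻¹ ∈ S ∨ ∃ ε : k, ∀ y ∈ W, ∀ x, y (x * g⁻¹) = ε * y x) :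
    ∀ g ∈ Subgroup.closure S, ∃ ε : k, ∀ y ∈ W, ∀ x, y (x * g) = ε * y x := by
  have hfin : Finite Q := inferInstance
  intro g hg
  rw [← Subgroup.mem_toSubmonoid, Subgroup.closure_toSubmonoid] at hg
  induction hg using Submonoid.closure_induction with
  | mem x hx =>
    rcases hx with hx | hx
    · exact hS x hx
    · have hx' : x⁻¹ ∈ S := hx
      rcases hSi _ hx' with h | h
      · rw [inv_inv] at h; exact hS x h
      · rw [inv_inv] at h; exact h
  | one => exact ⟨1, fun y _ x => by simp⟩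
  | mul g h _ _ ihg ihh =>
    obtain ⟨ε, he⟩ := ihg
    obtain ⟨δ, hd⟩ := ihh
    refine ⟨δ * ε, fun y hy x => ?_⟩
    rw [← mul_assoc, hd y hy, he y hy, mul_assoc]

omit [Finite Q] in
theorem not_mem_zpowers {a b : Q} (ha : a * a = 1) (hb : b * b = 1) (ha1 : a ≠ 1)
    (hb1 : b ≠ 1) : a ∉ Subgroup.zpowers (a * b) := by
  intro h
  obtain ⟨i, hi⟩ := h
  have hc : Commute a (a * b) := by
    have : Commute ((a * b) ^ i) (a * b) := (Commute.refl (a * b)).zpow_left i
    simp only at hi
    rwa [hi] at this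
  -- a * (a * b) = (a * b) * a gives b = a b a
  have h1 : a * b = b * a := by
    have := hc.eq
    calc a * b = a * (a * (a * b)) := by rw [← mul_assoc, ha, one_mul]
      _ = a * (a * b * a) := by rw [this]
      _ = b * a := by rw [← mul_assoc, ← mul_assoc, ha, one_mul]
  have h2 : (a * b) ^ 2 = 1 := by
    rw [_root_.sq]
    calc a * b * (a * b) = a * b * (b * a) := by rw [h1]
      _ = 1 := by rw [mul_assoc, ← mul_assoc b b a, hb, one_mul, ha]
  simp only at hi
  rcases Int.even_or_odd i with ⟨j, hj⟩ | ⟨j, hj⟩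
  · apply ha1
    rw [← hi, hj, ← two_mul, zpow_mul, zpow_ofNat, h2, one_zpow]
  · apply hb1
    rw [hj, zpow_add, zpow_mul, zpow_ofNat, h2, one_zpow, one_mul, zpow_one] at hi
    have : a * b = a * 1 := by rw [hi, mul_one]
    exact mul_left_cancel this

theorem card_closure_ge {a b : Q} (ha : a * a = 1) (hb : b * b = 1) (ha1 : a ≠ 1)
    (hb1 : b ≠ 1) : 2 * orderOf (a * b) ≤ Nat.card (Subgroup.closure {a * b, a}) := by
  have hle : Subgroup.zpowers (a * b) ≤ Subgroup.closure {a * b, a} := by
    rw [Subgroup.zpowers_le]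
    exact Subgroup.subset_closure (by simp)
  have hdvd := Subgroup.card_dvd_of_le hle
  rw [Nat.card_zpowers] at hdvd
  obtain ⟨m, hm⟩ := hdvd
  have hpos : 0 < Nat.card (Subgroup.closure {a * b, a}) := Nat.card_pos
  have hm0 : m ≠ 0 := by rintro rfl; omega
  have hm1 : m ≠ 1 := by
    rintro rfl
    rw [mul_one, ← Nat.card_zpowers] at hm
    have heq : Subgroup.zpowers (a * b) = Subgroup.closure {a * b, a} :=
      Subgroup.eq_of_le_of_card_ge hle hm.le
    have : a ∈ Subgroup.zpowers (a * b) := by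
      rw [heq]; exact Subgroup.subset_closure (by simp)
    exact not_mem_zpowers ha hb ha1 hb1 this
  have hm2 : 2 ≤ m := by omega
  rw [hm, mul_comm 2]
  exact Nat.mul_le_mul_left _ hm2

theorem finrank_U_le {a b : Q} (ha : a * a = 1) (hb : b * b = 1) (ha1 : a ≠ 1)
    (hb1 : b ≠ 1) :
    (finrank k (U k (a * b) a) : ℚ) ≤ (Nat.card Q : ℚ) * (1 / (2 * (orderOf (a * b) : ℚ))) := by
  have h1 : finrank k (U k (a * b) a) * Nat.card (Subgroup.closure {a * b, a}) ≤ Nat.card Q := by
    refine finrank_le_of_sub _ _ (scalar_closure _ _ ?_ ?_)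
    · rintro g (rfl | rfl)
      · exact ⟨1, fun y hy x => by rw [hy.1, one_mul]⟩
      · exact ⟨-1, fun y hy x => by rw [hy.2]; ring⟩
    · rintro g (rfl | rfl)
      · right
        refine ⟨1, fun y hy x => ?_⟩
        have := hy.1 (x * (a * b)⁻¹)
        rw [inv_mul_cancel_right] at this
        rw [one_mul, this]
      · left
        have : g⁻¹ = g := inv_eq_of_mul_eq_one_left ha
        rw [this]; simp
  have h2 := card_closure_ge ha hb ha1 hb1
  have h3 : finrank k (U k (a * b) a) * (2 * orderOf (a * b)) ≤ Nat.card Q :=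
    le_trans (Nat.mul_le_mul_left _ h2) h1
  have hpos : 0 < orderOf (a * b) := orderOf_pos _
  have hpos' : (0 : ℚ) < 2 * (orderOf (a * b) : ℚ) := by positivity
  rw [mul_one_div, le_div_iff₀ hpos']
  exact_mod_cast h3

theorem finrank_Ui_le {a : Q} (ha : a * a = 1) (ha1 : a ≠ 1) :
    (finrank k (Ui k a) : ℚ) ≤ (Nat.card Q : ℚ) * (1 / 2) := by
  have h1 : finrank k (Ui k a) * Nat.card (Subgroup.closure {a}) ≤ Nat.card Q := by
    refine finrank_le_of_sub _ _ (scalar_closure _ _ ?_ ?_)
    · rintro g rfl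
      exact ⟨1, fun y hy x => by rw [hy x, one_mul]⟩
    · rintro g rfl
      left
      have : g⁻¹ = g := inv_eq_of_mul_eq_one_left ha
      rw [this]; simp
  have h2 : Nat.card (Subgroup.closure {a}) = 2 := by
    rw [← Subgroup.zpowers_eq_closure, Nat.card_zpowers]
    exact orderOf_eq_prime (by rw [_root_.sq, ha]) ha1
  rw [h2] at h1
  have h3 : (finrank k (Ui k a) : ℚ) * 2 ≤ Nat.card Q := by exact_mod_cast h1
  linarith

/-- One constraint. -/
theorem finrank_step {E : Type*} [AddCommGroup E] [Module k E] [Module.Finite k E]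
    {V : Type*} [AddCommGroup V] [Module k V] [Module.Finite k V]
    (S : Submodule k E) (L : E →ₗ[k] V) (W : Submodule k V) (h : ∀ z ∈ S, L z ∈ W) :
    finrank k S ≤ finrank k (S ⊓ LinearMap.ker L : Submodule k E) + finrank k W := by
  let f : S →ₗ[k] W := (L.domRestrict S).codRestrict W (fun z => h z.1 z.2)
  have h1 := LinearMap.finrank_range_add_finrank_ker f
  have h2 : finrank k (LinearMap.range f) ≤ finrank k W := Submodule.finrank_le _
  have h3 : finrank k (LinearMap.ker f) ≤ finrank k (S ⊓ LinearMap.ker L : Submodule k E) := by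
    let g : LinearMap.ker f →ₗ[k] (S ⊓ LinearMap.ker L : Submodule k E) :=
      { toFun := fun z => ⟨z.1.1, z.1.2, by
          have h5 := LinearMap.mem_ker.1 z.2
          exact LinearMap.mem_ker.2 (congrArg Subtype.val h5)⟩
        map_add' := fun _ _ => rfl
        map_smul' := fun _ _ => rfl }
    refine LinearMap.finrank_le_finrank_of_injective (f := g) ?_
    intro z w hzw
    have := congrArg Subtype.val hzw
    exact Subtype.ext (Subtype.ext this)
  omega

end

end Pool.Agent.HZ
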