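import Pool.Agent.Lib_helper56.HZ.Chain

namespace Pool.Agent.HZ

open Module

section Hom

variable {R : Type*} [CommRing R] {Q : Type*} [Group Q]

theorem lift_rel (T : Data) {G : Type*} [Group G] (φ : Gam T →* G) :
    ∀ w ∈ rels T, FreeGroup.lift (fun i => φ (gen T i)) w = 1 := by
  intro w hw
  have h1 : FreeGroup.lift (fun i => φ (gen T i)) = φ.comp (PresentedGroup.mk (rels T)) := by
    ext i
    simp [gen, PresentedGroup.of]
  rw [h1, MonoidHom.comp_apply, PresentedGroup.one_of_mem hw, map_one]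

theorem lft_eq_one (T : Data) (ρ : Fin 3 → Q) (hrel : ∀ w ∈ rels T, FreeGroup.lift ρ w = 1)
    (z : Fin 3 → Q → R) (hz : ∀ w ∈ rels T, (lft ρ z w).v = 0) :
    ∀ w ∈ rels T, lft ρ z w = 1 := by
  intro w hw
  refine Aff.ext_v_zero _ ?_ (fun x => congrFun (hz w hw) x)
  rw [lft_g]; exact hrel w hw

/-- The homomorphism `Γ → Aff R Q` given by a solution `z`. -/
def psi (T : Data) (ρ : Fin 3 → Q) (z : Fin 3 → Q → R)
    (h : ∀ w ∈ rels T, lft ρ z w = 1) : Gam T →* Aff R Q :=
  PresentedGroup.toGroup (f := fun i => (⟨z i, ρ i⟩ : Aff R Q)) h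

theorem psi_gen (T : Data) (ρ : Fin 3 → Q) (z : Fin 3 → Q → R)
    (h : ∀ w ∈ rels T, lft ρ z w = 1) (i : Fin 3) :
    psi T ρ z h (gen T i) = ⟨z i, ρ i⟩ := by
  unfold psi gen
  exact PresentedGroup.toGroup.of h

theorem gam_ext (T : Data) {G : Type*} [Group G] (f g : Gam T →* G)
    (h : ∀ i, f (gen T i) = g (gen T i)) : f = g := by
  ext i
  exact h i

theorem psi_g (T : Data) (φ : Gam T →* Q) (z : Fin 3 → Q → R)
    (h : ∀ w ∈ rels T, lft (fun i => φ (gen T i)) z w = 1) (g : Gam T) :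
    (psi T (fun i => φ (gen T i)) z h g).g = φ g := by
  have h1 : (Aff.proj.comp (psi T (fun i => φ (gen T i)) z h) : Gam T →* Q) = φ := by
    apply gam_ext
    intro i
    rw [MonoidHom.comp_apply, psi_gen, Aff.proj_apply]
  exact DFunLike.congr_fun h1 g

end Hom

section Noninner

variable (k : Type*) [Field k] {Q : Type*} [Group Q] [Finite Q]

/-- Inner derivations. -/
def Inn (ρ : Fin 3 → Q) : (Q → k) →ₗ[k] (Fin 3 → Q → k) where
  toFun u := fun i x => u (x * ρ i) - u x
  map_add' u v := by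
    funext i x
    simp only [Pi.add_apply]; ring
  map_smul' c u := by
    funext i x
    simp only [Pi.smul_apply, smul_eq_mul, RingHom.id_apply]; ring

theorem finrank_Inn (ρ : Fin 3 → Q) :
    finrank k (LinearMap.range (Inn k ρ)) + 1 ≤ Nat.card Q := by
  have h1 := LinearMap.finrank_range_add_finrank_ker (Inn k ρ)
  have h2 : finrank k (Q → k) = Nat.card Q := by
    have : Fintype Q := Fintype.ofFinite Q
    rw [Module.finrank_fintype_fun_eq_card, Nat.card_eq_fintype_card]
  have h3 : 1 ≤ finrank k (LinearMap.ker (Inn k ρ)) := by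
    rw [Nat.one_le_iff_ne_zero]
    intro h
    have h4 : LinearMap.ker (Inn k ρ) = ⊥ := Submodule.finrank_eq_zero.1 h
    have h5 : (fun _ : Q => (1 : k)) ∈ LinearMap.ker (Inn k ρ) := by
      rw [LinearMap.mem_ker]
      funext i x
      show (1 : k) - 1 = 0
      ring
    rw [h4, Submodule.mem_bot] at h5
    have := congrFun h5 1
    simp at this
  omega

theorem inner_of_factor (T : Data) (φ : Gam T →* Q) (hφ : Function.Surjective φ)
    (z : Fin 3 → Q → k)
    (h : ∀ w ∈ rels T, lft (fun i => φ (gen T i)) z w = 1)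
    (h0 : ∀ g, φ g = 1 → (psi T (fun i => φ (gen T i)) z h g).v = 0) :
    z ∈ LinearMap.range (Inn k (fun i => φ (gen T i))) := by
  classical
  set Ψ := psi T (fun i => φ (gen T i)) z h with hΨ
  -- D(g) only depends on φ g
  have h1 : ∀ g g', φ g = φ g' → (Ψ g).v = (Ψ g').v := by
    intro g g' hg
    have h2 : φ (g * g'⁻¹) = 1 := by rw [map_mul, map_inv, hg, mul_inv_cancel]
    have h3 := h0 _ h2
    have h4 : Ψ g = Ψ (g * g'⁻¹) * Ψ g' := by rw [← map_mul]; congr 1; group
    funext x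
    rw [h4, Aff.mul_v, h3, psi_g, h2, mul_one]
    simp
  let s : Q → Gam T := fun q => (hφ q).choose
  have hs : ∀ q, φ (s q) = q := fun q => (hφ q).choose_spec
  refine ⟨fun x => (Ψ (s x)).v 1, ?_⟩
  funext i x
  show (Ψ (s (x * φ (gen T i)))).v 1 - (Ψ (s x)).v 1 = z i x
  have h5 : (Ψ (s (x * φ (gen T i)))).v = (Ψ (s x * gen T i)).v := by
    apply h1
    rw [hs, map_mul, hs]
  rw [h5, map_mul, Aff.mul_v, psi_g, hs, one_mul, hΨ, psi_gen]
  ring

theorem exists_nontrivial (T : Data) (hq2 : 2 ≤ T.q) (φ : Gam T →* Q)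
    (hφ : Function.Surjective φ) (h1 : ∀ i, φ (gen T i) ≠ 1)
    (h02 : φ (gen T 0) * φ (gen T 2) ≠ 1)
    (hc : totalCost k T (fun i => φ (gen T i)) ≤ 1 / 4) :
    ∃ (z : Fin 3 → Q → k) (h : ∀ w ∈ rels T, lft (fun i => φ (gen T i)) z w = 1) (g : Gam T),
      φ g = 1 ∧ (psi T (fun i => φ (gen T i)) z h g).v ≠ 0 := by
  by_contra hcon
  push Not at hcon
  have hb := der_bound k (fun i => φ (gen T i)) T hq2 h1 h02 (lift_rel T φ)
  have hle : Der k (fun i => φ (gen T i)) T ≤ LinearMap.range (Inn k (fun i => φ (gen T i))) := by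
    intro z hz
    rw [mem_Der] at hz
    have h := lft_eq_one T _ (lift_rel T φ) z hz
    exact inner_of_factor k T φ hφ z h (fun g hg => hcon z h g hg)
  have h2 := Submodule.finrank_mono hle
  have h3 := finrank_Inn k (fun i => φ (gen T i))
  have h4 : (finrank k (Der k (fun i => φ (gen T i)) T) : ℚ) + 1 ≤ Nat.card Q := by
    exact_mod_cast le_trans (Nat.succ_le_succ h2) h3
  have hpos : (0 : ℚ) < Nat.card Q := by
    have := Nat.card_pos (α := Q)
    exact_mod_cast this
  nlinarith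

end Noninner

section Bound

theorem Icc_split {k : ℕ} (hk : 1 ≤ k) (f : ℕ → ℚ) :
    ∑ j ∈ Finset.Icc 1 k, f j = f 1 + ∑ j ∈ Finset.Icc 2 k, f j := by
  have h : Finset.Icc 1 k = insert 1 (Finset.Icc 2 k) := by
    ext j; simp only [Finset.mem_insert, Finset.mem_Icc]; omega
  rw [h, Finset.sum_insert (by simp)]

/-- With the true orders and any field of characteristic `0` or any field at all, the cost is
half of the sum of the reciprocals. -/
theorem cost_exact (k : Type*) [Field k] {Q : Type*} [Group Q] [Finite Q] (n : ℕ) (s : Q)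
    (h : orderOf s = n) : cost k n s = 1 / 2 * (1 / (n : ℚ)) := by
  have hpos : 0 < n := by rw [← h]; exact orderOf_pos s
  unfold cost
  rw [h, Nat.div_self hpos, Nat.cast_one, if_neg one_ne_zero]
  have : (n : ℚ) ≠ 0 := by exact_mod_cast hpos.ne'
  field_simp

theorem totalCost_exact (k : Type*) [Field k] {Q : Type*} [Group Q] [Finite Q] (T : Data)
    (hq2 : 2 ≤ T.q) (x : Fin 3 → Q) (h : TrueOrders T x) :
    totalCost k T x = 1 / 2 * lengthSum T := by
  obtain ⟨-, -, hp, hq, hh', hr⟩ := h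
  have hk : 1 ≤ T.q / 2 := by omega
  unfold totalCost lengthSum
  rw [Icc_split hk, cost_exact k T.q _ hq]
  have e1 : costO k (hh T 1) (hole x 1) = 1 / 2 * (1 / (T.p : ℚ)) := by
    have : hh T 1 = some T.p := by simp [hh]
    rw [this]
    show cost k T.p (hole x 1) = _
    rw [cost_exact]
    rw [← hp]; simp [hole]
  have e2 : ∑ j ∈ Finset.Icc 2 (T.q / 2), costO k (hh T j) (hole x j)
      = 1 / 2 * ∑ j ∈ Finset.Icc 2 (T.q / 2), recip (T.h j) := by
    rw [Finset.mul_sum]
    refine Finset.sum_congr rfl (fun j hj => ?_)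
    rw [Finset.mem_Icc] at hj
    have hne : j ≠ 1 := by omega
    simp only [hh, if_neg hne]
    rcases hn : T.h j with _ | n
    · simp [costO, recip]
    · show cost k n (hole x j) = 1 / 2 * (1 / (n : ℚ))
      exact cost_exact k n _ (hh' j n hj.1 hj.2 hn)
  have e3 : ∑ j ∈ Finset.Icc 1 (T.q / 2), costO k (T.r j) (zigzag x j)
      = 1 / 2 * ∑ j ∈ Finset.Icc 1 (T.q / 2), recip (T.r j) := by
    rw [Finset.mul_sum]
    refine Finset.sum_congr rfl (fun j hj => ?_)
    rw [Finset.mem_Icc] at hj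
    rcases hn : T.r j with _ | n
    · simp [costO, recip]
    · show cost k n (zigzag x j) = 1 / 2 * (1 / (n : ℚ))
      exact cost_exact k n _ (hr j n hj.1 hj.2 hn)
  rw [e1, e2, e3]; ring

/-- Theorem A. -/
theorem finite_bound (T : Data) (hq2 : 2 ≤ T.q) (hT : TrueOrders T (gen T))
    (hfin : Finite (Gam T)) : 1 / 2 + 2 / (Nat.card (Gam T) : ℚ) ≤ lengthSum T := by
  have hb := der_bound ℚ (fun i => (MonoidHom.id (Gam T)) (gen T i)) T hq2
    (fun i => hT.1 i) hT.2.1 (lift_rel T (MonoidHom.id (Gam T)))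
  have hle : Der ℚ (fun i => (MonoidHom.id (Gam T)) (gen T i)) T
      ≤ LinearMap.range (Inn ℚ (fun i => (MonoidHom.id (Gam T)) (gen T i))) := by
    intro z hz
    rw [mem_Der] at hz
    have h := lft_eq_one T _ (lift_rel T (MonoidHom.id (Gam T))) z hz
    refine inner_of_factor ℚ T (MonoidHom.id (Gam T)) (fun x => ⟨x, rfl⟩) z h ?_
    intro g hg
    have : g = 1 := hg
    rw [this, map_one]; rfl
  have h2 := Submodule.finrank_mono hle
  have h3 := finrank_Inn ℚ (fun i => (MonoidHom.id (Gam T)) (gen T i))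
  have h4 : (finrank ℚ (Der ℚ (fun i => (MonoidHom.id (Gam T)) (gen T i)) T) : ℚ) + 1
      ≤ Nat.card (Gam T) := by
    exact_mod_cast le_trans (Nat.succ_le_succ h2) h3
  have h5 : totalCost ℚ T (fun i => (MonoidHom.id (Gam T)) (gen T i)) = 1 / 2 * lengthSum T :=
    totalCost_exact ℚ T hq2 _ hT
  rw [h5] at hb
  have hpos : (0 : ℚ) < Nat.card (Gam T) := by
    have := Nat.card_pos (α := Gam T)
    exact_mod_cast this
  have h6 : 2 / (Nat.card (Gam T) : ℚ) ≤ lengthSum T - 1 / 2 := by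
    rw [div_le_iff₀ hpos]
    nlinarith
  linarith

end Bound

end Pool.Agent.HZ
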