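import Pool.Agent.Lib_helper56.HZ.Poly

namespace Pool.Agent.HZ

open Module

theorem lft_map {R S : Type*} [CommRing R] [CommRing S] {Q : Type*} [Group Q] (f : R →+* S)
    (ρ : Fin 3 → Q) (z : Fin 3 → Q → R) (w : FreeGroup (Fin 3)) :
    Aff.map f (lft ρ z w) = lft ρ (fun i x => f (z i x)) w := by
  have h : ((Aff.map f).comp (lft ρ z) : FreeGroup (Fin 3) →* Aff S Q)
      = lft ρ (fun i x => f (z i x)) := by
    ext i
    · simp [lft_of, Aff.map]
    · simp [lft_of, Aff.map]
  exact DFunLike.congr_fun h w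

theorem psi_map {R S : Type*} [CommRing R] [CommRing S] {Q : Type*} [Group Q] (f : R →+* S)
    (T : Data) (ρ : Fin 3 → Q) (z : Fin 3 → Q → R) (h : ∀ w ∈ rels T, lft ρ z w = 1)
    (h' : ∀ w ∈ rels T, lft ρ (fun i x => f (z i x)) w = 1) (g : Gam T) :
    Aff.map f (psi T ρ z h g) = psi T ρ (fun i x => f (z i x)) h' g := by
  have h1 : ((Aff.map f).comp (psi T ρ z h) : Gam T →* Aff S Q)
      = psi T ρ (fun i x => f (z i x)) h' := by
    apply gam_ext
    intro i
    rw [MonoidHom.comp_apply, psi_gen, psi_gen]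
    rfl
  exact DFunLike.congr_fun h1 g

/-- Integral scaling. -/
theorem exists_int {Q : Type*} [Group Q] [Finite Q] (z : Fin 3 → Q → ℚ) :
    ∃ (N : ℤ) (y : Fin 3 → Q → ℤ), N ≠ 0 ∧ ∀ i x, (y i x : ℚ) = (N : ℚ) * z i x := by
  classical
  have : Fintype Q := Fintype.ofFinite Q
  let N : ℤ := ∏ p : Fin 3 × Q, ((z p.1 p.2).den : ℤ)
  have hN : N ≠ 0 := Finset.prod_ne_zero_iff.2 (fun p _ => by exact_mod_cast (z p.1 p.2).den_nz)
  have h : ∀ i x, ∃ m : ℤ, (m : ℚ) = (N : ℚ) * z i x := by
    intro i x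
    have hd : ((z i x).den : ℤ) ∣ N := Finset.dvd_prod_of_mem (fun p : Fin 3 × Q =>
      ((z p.1 p.2).den : ℤ)) (Finset.mem_univ (i, x))
    obtain ⟨c, hc⟩ := hd
    refine ⟨c * (z i x).num, ?_⟩
    rw [hc]
    push_cast
    have h1 : (z i x) * ((z i x).den : ℚ) = (z i x).num := Rat.mul_den_eq_num (z i x)
    rw [← h1]; ring
  choose y hy using h
  exact ⟨N, y, hN, hy⟩

/-- All prescriptions of `T` are true orders for `x`. -/
def Compat {G : Type*} [Group G] (T : Data) (x : Fin 3 → G) : Prop :=
  T.p = orderOf (x 0 * x 1) ∧ T.q = orderOf (x 1 * x 2) ∧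
    (∀ j n, 2 ≤ j → j ≤ T.q / 2 → T.h j = some n → n = orderOf (hole x j)) ∧
    (∀ j n, 1 ≤ j → j ≤ T.q / 2 → T.r j = some n → n = orderOf (zigzag x j))

theorem rels_ok {G : Type*} [Group G] {x : Fin 3 → G} (hx : IsRegularPolyhedron x) {T : Data}
    (hT : Compat T x) : ∀ w ∈ rels T, FreeGroup.lift x w = 1 := by
  obtain ⟨hTp, hTq, hTh, hTr⟩ := hT
  rintro w (⟨i, rfl⟩ | rfl | rfl | rfl | ⟨j, n, hj1, hj2, hn, rfl⟩ | ⟨j, n, hj1, hj2, hn, rfl⟩)
  · rw [map_pow, FreeGroup.lift_apply_of, ← hx.invol i]; exact pow_orderOf_eq_one _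
  · rw [map_pow, map_mul, FreeGroup.lift_apply_of, FreeGroup.lift_apply_of, hTp]
    exact pow_orderOf_eq_one _
  · rw [map_pow, map_mul, FreeGroup.lift_apply_of, FreeGroup.lift_apply_of, hTq]
    exact pow_orderOf_eq_one _
  · rw [map_pow, map_mul, FreeGroup.lift_apply_of, FreeGroup.lift_apply_of]
    exact hx.comm
  · rw [map_pow, map_hole, hTh j n hj1 hj2 hn]
    have h2 : (fun i => FreeGroup.lift x (FreeGroup.of i)) = x := by
      funext i; exact FreeGroup.lift_apply_of
    rw [h2]; exact pow_orderOf_eq_one _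
  · rw [map_pow, map_zigzag, hTr j n hj1 hj2 hn]
    have h2 : (fun i => FreeGroup.lift x (FreeGroup.of i)) = x := by
      funext i; exact FreeGroup.lift_apply_of
    rw [h2]; exact pow_orderOf_eq_one _

/-- The canonical projection of the universal group. -/
def toPoly {G : Type*} [Group G] {x : Fin 3 → G} (hx : IsRegularPolyhedron x) {T : Data}
    (hT : Compat T x) : Gam T →* G := PresentedGroup.toGroup (rels_ok hx hT)

theorem toPoly_gen {G : Type*} [Group G] {x : Fin 3 → G} (hx : IsRegularPolyhedron x) {T : Data}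
    (hT : Compat T x) (i : Fin 3) : toPoly hx hT (gen T i) = x i :=
  PresentedGroup.toGroup.of (rels_ok hx hT)

/-- Orders are preserved in every quotient of the universal group that covers `x`. -/
theorem image_lengths {G G' : Type*} [Group G] [Group G'] {x : Fin 3 → G}
    (hx : IsRegularPolyhedron x) {T : Data} (hT : Compat T x) (f : Gam T →* G') (π : G' →* G)
    (hf : ∀ i, π (f (gen T i)) = x i) (hs : Function.Surjective f) :
    IsRegularPolyhedron (fun i => f (gen T i)) ∧
      orderOf (f (gen T 0) * f (gen T 1)) = orderOf (x 0 * x 1) ∧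
      orderOf (f (gen T 1) * f (gen T 2)) = orderOf (x 1 * x 2) ∧
      (∀ j n, 2 ≤ j → j ≤ T.q / 2 → T.h j = some n →
        orderOf (hole (fun i => f (gen T i)) j) = orderOf (hole x j)) ∧
      (∀ j n, 1 ≤ j → j ≤ T.q / 2 → T.r j = some n →
        orderOf (zigzag (fun i => f (gen T i)) j) = orderOf (zigzag x j)) := by
  obtain ⟨hTp, hTq, hTh, hTr⟩ := id hT
  set x' : Fin 3 → G' := fun i => f (gen T i) with hx'
  have hrel := lift_rel T f
  have key : ∀ (w : FreeGroup (Fin 3)), w ^ orderOf (FreeGroup.lift x w) ∈ rels T →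
      orderOf (FreeGroup.lift x' w) = orderOf (FreeGroup.lift x w) := by
    intro w hw
    apply Nat.dvd_antisymm
    · apply orderOf_dvd_of_pow_eq_one
      rw [← map_pow]; exact hrel _ hw
    · have h1 : π (FreeGroup.lift x' w) = FreeGroup.lift x w := by
        have h2 : (π.comp (FreeGroup.lift x')) = FreeGroup.lift x := by
          ext i
          simp only [MonoidHom.comp_apply, FreeGroup.lift_apply_of]
          exact hf i
        exact DFunLike.congr_fun h2 w
      rw [← h1]; exact orderOf_map_dvd π _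
  have k01 : orderOf (x' 0 * x' 1) = orderOf (x 0 * x 1) := by
    have := key (FreeGroup.of 0 * FreeGroup.of 1) (by
      right; left
      simp [hTp])
    simpa using this
  have k12 : orderOf (x' 1 * x' 2) = orderOf (x 1 * x 2) := by
    have := key (FreeGroup.of 1 * FreeGroup.of 2) (by
      right; right; left
      simp [hTq])
    simpa using this
  have hlx : (fun i => FreeGroup.lift x (FreeGroup.of i)) = x := by
    funext i; exact FreeGroup.lift_apply_of
  have hlx' : (fun i => FreeGroup.lift x' (FreeGroup.of i)) = x' := by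
    funext i; exact FreeGroup.lift_apply_of
  refine ⟨?_, k01, k12, ?_, ?_⟩
  · refine cover_poly hx π hf ?_ ?_ ?_ k01 k12
    · have h1 : Set.range x' = f '' Set.range (gen T) := by
        rw [← Set.range_comp]; rfl
      have h2 : Subgroup.closure (Set.range (gen T)) = ⊤ :=
        PresentedGroup.closure_range_of (rels T)
      rw [h1, ← MonoidHom.map_closure, h2, ← MonoidHom.range_eq_map,
        MonoidHom.range_eq_top.2 hs]
    · intro i
      have := hrel (FreeGroup.of i ^ 2) (Or.inl ⟨i, rfl⟩)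
      simpa [_root_.sq] using this
    · have := hrel ((FreeGroup.of 0 * FreeGroup.of 2) ^ 2)
        (Or.inr (Or.inr (Or.inr (Or.inl rfl))))
      simpa using this
  · intro j n hj1 hj2 hn
    have := key (hole FreeGroup.of j)
      (Or.inr (Or.inr (Or.inr (Or.inr (Or.inl ⟨j, _, hj1, hj2, by
        rw [map_hole, hlx, hn, hTh j n hj1 hj2 hn], rfl⟩)))))
    rw [map_hole, map_hole, hlx, hlx'] at this
    exact this
  · intro j n hj1 hj2 hn
    have := key (zigzag FreeGroup.of j)
      (Or.inr (Or.inr (Or.inr (Or.inr (Or.inr ⟨j, _, hj1, hj2, by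
        rw [map_zigzag, hlx, hn, hTr j n hj1 hj2 hn], rfl⟩)))))
    rw [map_zigzag, map_zigzag, hlx, hlx'] at this
    exact this

theorem poly_ne {G : Type*} [Group G] {x : Fin 3 → G} (hx : IsRegularPolyhedron x) :
    (∀ i, x i ≠ 1) ∧ x 0 * x 2 ≠ 1 ∧ x 1 * x 2 ≠ 1 := by
  have hx1 : ∀ i, x i ≠ 1 := by
    intro i h
    have := hx.invol i
    rw [h, orderOf_one] at this
    norm_num at this
  have gen_ne : ∀ i j : Fin 3, i ≠ j → x i * x j ≠ 1 := by
    intro i j hij h
    have h3 : x j * x j = 1 := by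
      have := pow_orderOf_eq_one (x j)
      rwa [hx.invol j, _root_.sq] at this
    have h2 : x j = x i := by
      have h4 : x i = (x j)⁻¹ := eq_inv_of_mul_eq_one_left h
      rw [h4]; exact (inv_eq_of_mul_eq_one_left h3).symm
    have h5 := hx.inter {i} {j}
    have h6 : ({i} ∩ {j} : Set (Fin 3)) = ∅ := by
      rw [Set.singleton_inter_eq_empty]; simpa using hij
    rw [h6, Set.image_empty, Subgroup.closure_empty, Set.image_singleton, Set.image_singleton,
      h2, inf_idem] at h5
    have h7 : x i ∈ Subgroup.closure {x i} := Subgroup.subset_closure (by simp)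
    rw [h5, Subgroup.mem_bot] at h7
    exact hx1 i h7
  exact ⟨hx1, gen_ne 0 2 (by decide), gen_ne 1 2 (by decide)⟩

/-- Theorem C, main part. -/
theorem many_covers.{u} {G : Type u} [Group G] [Finite G] {x : Fin 3 → G}
    (hx : IsRegularPolyhedron x) {T : Data} (hT : Compat T x) (hS : lengthSum T ≤ 1 / 2) (N : ℕ) :
    ∃ (G' : Type u) (_ : Group G') (_ : Finite G') (f : Gam T →* G') (π : G' →* G),
      Function.Surjective f ∧ (∀ i, π (f (gen T i)) = x i) ∧ N < Nat.card G' := by
  classical
  obtain ⟨hTp, hTq, hTh, hTr⟩ := id hT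
  set φ := toPoly hx hT with hφ
  have hφg : (fun i => φ (gen T i)) = x := funext (toPoly_gen hx hT)
  obtain ⟨n1, n02, n12⟩ := poly_ne hx
  have hq2 : 2 ≤ T.q := by
    have h1 : 0 < orderOf (x 1 * x 2) := orderOf_pos _
    have h2 : orderOf (x 1 * x 2) ≠ 1 := by
      rw [Ne, orderOf_eq_one_iff]; exact n12
    omega
  have hsurj : Function.Surjective φ := by
    rw [← MonoidHom.range_eq_top, eq_top_iff, ← hx.gens, Subgroup.closure_le]
    rintro _ ⟨i, rfl⟩
    exact ⟨gen T i, toPoly_gen hx hT i⟩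
  have htrue : TrueOrders T x := by
    exact ⟨n1, n02, hTp.symm, hTq.symm, fun j n a b h => (hTh j n a b h).symm,
      fun j n a b h => (hTr j n a b h).symm⟩
  have hc : totalCost ℚ T (fun i => φ (gen T i)) ≤ 1 / 4 := by
    rw [hφg, totalCost_exact ℚ T hq2 x htrue]
    linarith
  obtain ⟨z, hz, g, hg, hgv⟩ := exists_nontrivial ℚ T hq2 φ hsurj
    (fun i => by rw [hφ, toPoly_gen hx hT i]; exact n1 i)
    (by rw [hφ, toPoly_gen hx hT, toPoly_gen hx hT]; exact n02) hc
  obtain ⟨M, y, hM, hy⟩ := exists_int z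
  have hyz : (fun i x => ((Int.castRingHom ℚ) (y i x))) = (M : ℚ) • z := by
    funext i x
    simp only [Pi.smul_apply, smul_eq_mul]
    exact hy i x
  -- integral relations
  have hrelv : ∀ w ∈ rels T, ∀ t, (lft (fun i => φ (gen T i)) ((M : ℚ) • z) w).v t = 0 := by
    intro w hw t
    rw [lft_smul, hz w hw, Aff.one_v, mul_zero]
  have hint : ∀ w ∈ rels T, lft (fun i => φ (gen T i)) y w = 1 := by
    intro w hw
    refine Aff.ext_v_zero _ ?_ ?_
    · rw [lft_g]; exact lift_rel T φ w hw
    · intro t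
      have h1 := lft_map (Int.castRingHom ℚ) (fun i => φ (gen T i)) y w
      rw [hyz] at h1
      have h2 := congrArg (fun c => c.v t) h1
      simp only [hrelv w hw t] at h2
      have h3 : ((lft (fun i => φ (gen T i)) y w).v t : ℚ) = 0 := h2
      exact_mod_cast h3
  have hratM : ∀ w ∈ rels T, lft (fun i => φ (gen T i)) ((M : ℚ) • z) w = 1 := by
    intro w hw
    refine Aff.ext_v_zero _ ?_ (hrelv w hw)
    rw [lft_g]; exact lift_rel T φ w hw
  -- the value at g
  have hval : ∃ t, (psi T (fun i => φ (gen T i)) y hint g).v t ≠ 0 := by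
    by_contra hcon
    push Not at hcon
    apply hgv
    have hh : ∀ g t, (psi T (fun i => φ (gen T i)) ((M : ℚ) • z) hratM g).v t
        = (M : ℚ) * (psi T (fun i => φ (gen T i)) z hz g).v t := by
      intro g
      obtain ⟨w, rfl⟩ := PresentedGroup.mk_surjective _ g
      intro t
      have a1 : ∀ (z' : Fin 3 → G → ℚ) (hz' : ∀ w ∈ rels T, lft (fun i => φ (gen T i)) z' w = 1),
          psi T (fun i => φ (gen T i)) z' hz' (PresentedGroup.mk (rels T) w)
            = lft (fun i => φ (gen T i)) z' w := by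
        intro z' hz'
        have a2 : (psi T (fun i => φ (gen T i)) z' hz').comp (PresentedGroup.mk (rels T))
            = lft (fun i => φ (gen T i)) z' := by
          ext1 i
          rw [MonoidHom.comp_apply, lft_of]
          exact psi_gen T _ z' hz' i
        exact DFunLike.congr_fun a2 w
      rw [a1, a1, lft_smul]
    funext t
    have h1 : Aff.map (Int.castRingHom ℚ) (psi T (fun i => φ (gen T i)) y hint g)
        = psi T (fun i => φ (gen T i)) (fun i x => (Int.castRingHom ℚ) (y i x)) (by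
          intro w hw; rw [hyz]; exact hratM w hw) g :=
      psi_map _ T _ y hint _ g
    have h2 := congrArg (fun c => c.v t) h1
    have h3 : (Aff.map (Int.castRingHom ℚ) (psi T (fun i => φ (gen T i)) y hint g)).v t = 0 := by
      show (Int.castRingHom ℚ) ((psi T (fun i => φ (gen T i)) y hint g).v t) = 0
      rw [hcon t, map_zero]
    simp only [h3] at h2
    have h4 : (psi T (fun i => φ (gen T i)) ((M : ℚ) • z) hratM g).v t = 0 := by
      have h5 : ∀ (z1 z2 : Fin 3 → G → ℚ) (e : z1 = z2)
          (k1 : ∀ w ∈ rels T, lft (fun i => φ (gen T i)) z1 w = 1)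
          (k2 : ∀ w ∈ rels T, lft (fun i => φ (gen T i)) z2 w = 1),
          (psi T (fun i => φ (gen T i)) z1 k1 g).v t = (psi T (fun i => φ (gen T i)) z2 k2 g).v t := by
        intro z1 z2 e k1 k2
        subst e
        rfl
      rw [← h5 _ _ hyz _ hratM]
      exact h2.symm
    rw [hh] at h4
    have hM' : (M : ℚ) ≠ 0 := by exact_mod_cast hM
    rcases mul_eq_zero.1 h4 with h | h
    · exact absurd h hM'
    · exact h
  obtain ⟨t, ht⟩ := hval
  set c : ℤ := (psi T (fun i => φ (gen T i)) y hint g).v t with hcdef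
  obtain ⟨m, hmge, hmp⟩ := Nat.exists_infinite_primes (N + c.natAbs + 1)
  have : Fact m.Prime := ⟨hmp⟩
  have hmc : ¬ (m : ℤ) ∣ c := by
    intro h
    have h1 := Int.le_of_dvd (a := (m : ℤ)) (b := |c|) (abs_pos.2 ht) ((dvd_abs _ _).2 h)
    have h2 : |c| = (c.natAbs : ℤ) := Int.abs_eq_natAbs c
    omega
  -- reduction modulo m
  let F : Gam T →* Aff (ZMod m) G :=
    (Aff.map (Int.castRingHom (ZMod m))).comp (psi T (fun i => φ (gen T i)) y hint)
  have hFg : ∀ g, (F g).g = φ g := fun g => psi_g T φ y hint g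
  have hFcard : N < Nat.card F.range := by
    have h1 : (F g).g = 1 := by rw [hFg]; exact hg
    have h2 : (F g).v t = (c : ZMod m) := rfl
    have h3 : m ∣ orderOf (F g) := by
      have h4 := pow_orderOf_eq_one (F g)
      have h5 := congrArg (fun c => c.v t) h4
      simp only [Aff.pow_v_of_g_one _ h1, h2, Aff.one_v] at h5
      rcases mul_eq_zero.1 h5 with h | h
      · exact (ZMod.natCast_eq_zero_iff _ _).1 h
      · exfalso
        apply hmc
        exact (ZMod.intCast_zmod_eq_zero_iff_dvd _ _).1 h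
    have h6 : orderOf (F g) = orderOf (F.rangeRestrict g) := by
      rw [← Subgroup.orderOf_coe]; rfl
    rw [h6] at h3
    have h7 : orderOf (F.rangeRestrict g) ≤ Nat.card F.range := orderOf_le_card
    have h8 : 0 < orderOf (F.rangeRestrict g) := orderOf_pos _
    have h9 := Nat.le_of_dvd h8 h3
    omega
  refine ⟨F.range, inferInstance, inferInstance, F.rangeRestrict,
    Aff.proj.comp F.range.subtype, F.rangeRestrict_surjective, ?_, hFcard⟩
  intro i
  show (F (gen T i)).g = x i
  rw [hFg]; exact toPoly_gen hx hT i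

theorem compat_dataOf {G : Type*} [Group G] (x : Fin 3 → G) : Compat (dataOf x) x := by
  refine ⟨rfl, rfl, ?_, ?_⟩
  · intro j n _ _ h
    simpa [dataOf] using h.symm
  · intro j n _ _ h
    simpa [dataOf] using h.symm

end Pool.Agent.HZ
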