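import Pool.Agent.Lib_helper56.HZ.Main

namespace Pool.Agent.HZ

open Module

/-- `x` is the triple of distinguished generators of (the automorphism group of) a regular
polyhedron: a string C-group of rank three. -/
structure IsRegularPolyhedron {G : Type*} [Group G] (x : Fin 3 → G) : Prop where
  gens : Subgroup.closure (Set.range x) = ⊤
  invol : ∀ i, orderOf (x i) = 2
  comm : (x 0 * x 2) ^ 2 = 1
  inter : ∀ I J : Set (Fin 3),
    Subgroup.closure (x '' I) ⊓ Subgroup.closure (x '' J) = Subgroup.closure (x '' (I ∩ J))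

/-- Two triples of generators have the same type, the same hole lengths and the same zigzag
lengths. -/
def SameLengths {G G' : Type*} [Group G] [Group G'] (x : Fin 3 → G) (x' : Fin 3 → G') : Prop :=
  orderOf (x' 0 * x' 1) = orderOf (x 0 * x 1) ∧ orderOf (x' 1 * x' 2) = orderOf (x 1 * x 2) ∧
    (∀ j, 2 ≤ j → j ≤ orderOf (x 1 * x 2) / 2 → orderOf (hole x' j) = orderOf (hole x j)) ∧
    (∀ j, 1 ≤ j → j ≤ orderOf (x 1 * x 2) / 2 → orderOf (zigzag x' j) = orderOf (zigzag x j))

/-- The full tuple of lengths of a regular polyhedron. -/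
noncomputable def dataOf {G : Type*} [Group G] (x : Fin 3 → G) : Data where
  p := orderOf (x 0 * x 1)
  q := orderOf (x 1 * x 2)
  h := fun j => some (orderOf (hole x j))
  r := fun j => some (orderOf (zigzag x j))

theorem dihedral_mem {G : Type*} [Group G] {a b : G} (ha : a * a = 1) (hb : b * b = 1) :
    ∀ g ∈ Subgroup.closure {a, b}, ∃ n : ℤ, g = (a * b) ^ n ∨ g = (a * b) ^ n * a := by
  have ha' : a⁻¹ = a := inv_eq_of_mul_eq_one_left ha
  have hb' : b⁻¹ = b := inv_eq_of_mul_eq_one_left hb
  have hinv : a * (a * b) * a⁻¹ = (a * b)⁻¹ := by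
    rw [mul_inv_rev, ha', hb', ← mul_assoc a a b, ha, one_mul]
  have hc : ∀ n : ℤ, a * (a * b) ^ n = (a * b) ^ (-n) * a := by
    intro n
    have : a * (a * b) ^ n * a⁻¹ = (a * b) ^ (-n) := by
      rw [← conj_zpow, hinv, inv_zpow, zpow_neg]
    rw [← this]; group
  intro g hg
  induction hg using Subgroup.closure_induction with
  | mem x hx =>
    rcases hx with rfl | hx
    · exact ⟨0, Or.inr (by simp)⟩
    · have hx' : x = b := hx
      subst hx'
      refine ⟨-1, Or.inr ?_⟩
      rw [zpow_neg, zpow_one, mul_inv_rev, ha', hb', mul_assoc, ha, mul_one]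
  | one => exact ⟨0, Or.inl (by simp)⟩
  | mul x y _ _ ihx ihy =>
    obtain ⟨n, hn⟩ := ihx
    obtain ⟨m, hm⟩ := ihy
    rcases hn with rfl | rfl <;> rcases hm with rfl | rfl
    · exact ⟨n + m, Or.inl (by rw [zpow_add])⟩
    · exact ⟨n + m, Or.inr (by rw [zpow_add, mul_assoc])⟩
    · refine ⟨n + -m, Or.inr ?_⟩
      rw [mul_assoc, hc, ← mul_assoc, zpow_add]
    · refine ⟨n + -m, Or.inl ?_⟩
      rw [mul_assoc, ← mul_assoc a, hc, mul_assoc ((a * b) ^ (-m)), ha, mul_one, zpow_add]
  | inv x _ ih =>
    obtain ⟨n, hn⟩ := ih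
    rcases hn with rfl | rfl
    · exact ⟨-n, Or.inl (by rw [zpow_neg])⟩
    · refine ⟨n, Or.inr ?_⟩
      rw [mul_inv_rev, ha', ← zpow_neg, hc, neg_neg]

theorem dihedral_inj {G G' : Type*} [Group G] [Group G'] (π : G' →* G) {a b : G'}
    (ha : a * a = 1) (hb : b * b = 1) (ha1 : π a ≠ 1) (hb1 : π b ≠ 1)
    (ho : orderOf (a * b) = orderOf (π a * π b)) :
    ∀ g ∈ Subgroup.closure {a, b}, π g = 1 → g = 1 := by
  intro g hg h1
  have hpa : π a * π a = 1 := by rw [← map_mul, ha, map_one]
  have hpb : π b * π b = 1 := by rw [← map_mul, hb, map_one]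
  obtain ⟨n, hn⟩ := dihedral_mem ha hb g hg
  rcases hn with rfl | rfl
  · rw [map_zpow, map_mul] at h1
    have h2 := orderOf_dvd_iff_zpow_eq_one.2 h1
    rw [← ho] at h2
    exact orderOf_dvd_iff_zpow_eq_one.1 h2
  · exfalso
    rw [map_mul, map_zpow, map_mul] at h1
    refine not_mem_zpowers hpa hpb ha1 hb1 ?_
    have h3 : π a = ((π a * π b) ^ n)⁻¹ := eq_inv_of_mul_eq_one_right h1
    have h4 : ((π a * π b) ^ n)⁻¹ ∈ Subgroup.zpowers (π a * π b) :=
      Subgroup.inv_mem _ (Subgroup.mem_zpowers_iff.2 ⟨n, rfl⟩)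
    rwa [← h3] at h4

theorem pair_of_proper (J : Set (Fin 3)) (hJ : J ≠ Set.univ) :
    J ⊆ {0, 1} ∨ J ⊆ {1, 2} ∨ J ⊆ {0, 2} := by
  have : ∃ i, i ∉ J := by
    by_contra h
    push Not at h
    exact hJ (Set.eq_univ_of_forall h)
  obtain ⟨i, hi⟩ := this
  fin_cases i
  · right; left
    intro j hj
    fin_cases j
    · exact absurd hj hi
    · simp
    · simp
  · right; right
    intro j hj
    fin_cases j
    · simp
    · exact absurd hj hi
    · simp
  · left
    intro j hj
    fin_cases j
    · simp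
    · simp
    · exact absurd hj hi

/-- A cover with the same type is again a regular polyhedron. -/
theorem cover_poly {G G' : Type*} [Group G] [Group G'] {x : Fin 3 → G} {x' : Fin 3 → G'}
    (hx : IsRegularPolyhedron x) (π : G' →* G) (hπ : ∀ i, π (x' i) = x i)
    (hg : Subgroup.closure (Set.range x') = ⊤) (hi : ∀ i, x' i * x' i = 1)
    (hc : (x' 0 * x' 2) ^ 2 = 1) (h01 : orderOf (x' 0 * x' 1) = orderOf (x 0 * x 1))
    (h12 : orderOf (x' 1 * x' 2) = orderOf (x 1 * x 2)) : IsRegularPolyhedron x' := by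
  have hx1 : ∀ i, x i ≠ 1 := by
    intro i h
    have := hx.invol i
    rw [h, orderOf_one] at this
    norm_num at this
  have hx02 : x 0 * x 2 ≠ 1 := by
    intro h
    have h2 : x 2 = x 0 := by
      have h3 : x 2 * x 2 = 1 := by
        have := pow_orderOf_eq_one (x 2)
        rwa [hx.invol 2, _root_.sq] at this
      have h4 : x 0 = (x 2)⁻¹ := eq_inv_of_mul_eq_one_left h
      rw [h4]; exact (inv_eq_of_mul_eq_one_left h3).symm
    have h5 := hx.inter {0} {2}
    have h6 : ({0} ∩ {2} : Set (Fin 3)) = ∅ := by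
      ext j; fin_cases j <;> simp
    rw [h6, Set.image_empty, Subgroup.closure_empty, Set.image_singleton, Set.image_singleton,
      h2, inf_idem] at h5
    have h7 : x 0 ∈ Subgroup.closure {x 0} := Subgroup.subset_closure (by simp)
    rw [h5, Subgroup.mem_bot] at h7
    exact hx1 0 h7
  have h02 : orderOf (x' 0 * x' 2) = orderOf (x 0 * x 2) := by
    have e1 : orderOf (x 0 * x 2) = 2 := orderOf_eq_prime hx.comm hx02
    have e2 : orderOf (x' 0 * x' 2) = 2 := by
      refine orderOf_eq_prime hc ?_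
      intro h
      apply hx02
      rw [← hπ 0, ← hπ 2, ← map_mul, h, map_one]
    rw [e1, e2]
  have inj : ∀ J : Set (Fin 3), J ≠ Set.univ → ∀ g ∈ Subgroup.closure (x' '' J),
      π g = 1 → g = 1 := by
    intro J hJ g hgJ hg1
    have hpr : ∀ i j, orderOf (x' i * x' j) = orderOf (x i * x j) → J ⊆ {i, j} → g = 1 := by
      intro i j hij hJij
      refine dihedral_inj π (hi i) (hi j) (by rw [hπ]; exact hx1 i) (by rw [hπ]; exact hx1 j)
        (by rw [hπ, hπ]; exact hij) g ?_ hg1
      have : x' '' J ⊆ {x' i, x' j} := by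
        refine le_trans (Set.image_mono hJij) ?_
        rw [Set.image_pair]
      exact Subgroup.closure_mono this hgJ
    rcases pair_of_proper J hJ with h | h | h
    · exact hpr 0 1 h01 h
    · exact hpr 1 2 h12 h
    · exact hpr 0 2 h02 h
  have hmapc : ∀ J : Set (Fin 3), (Subgroup.closure (x' '' J)).map π = Subgroup.closure (x '' J) := by
    intro J
    rw [MonoidHom.map_closure]
    congr 1
    rw [← Set.image_comp]
    exact Set.image_congr (fun i _ => hπ i)
  refine ⟨hg, ?_, hc, ?_⟩
  · intro i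
    refine orderOf_eq_prime (by rw [_root_.sq]; exact hi i) ?_
    intro h
    apply hx1 i
    rw [← hπ, h, map_one]
  · intro I J
    have huniv : Subgroup.closure (x' '' Set.univ) = ⊤ := by rw [Set.image_univ]; exact hg
    by_cases hJ : J = Set.univ
    · rw [hJ, huniv, inf_top_eq, Set.inter_univ]
    · by_cases hI : I = Set.univ
      · rw [hI, huniv, top_inf_eq, Set.univ_inter]
      · apply le_antisymm
        · intro g hgm
          obtain ⟨hgI, hgJ⟩ := Subgroup.mem_inf.1 hgm
          have h1 : π g ∈ Subgroup.closure (x '' I) ⊓ Subgroup.closure (x '' J) := by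
            rw [Subgroup.mem_inf, ← hmapc, ← hmapc]
            exact ⟨Subgroup.mem_map_of_mem π hgI, Subgroup.mem_map_of_mem π hgJ⟩
          rw [hx.inter, ← hmapc] at h1
          obtain ⟨g2, hg2, hg3⟩ := Subgroup.mem_map.1 h1
          have h4 : g2 ∈ Subgroup.closure (x' '' J) :=
            Subgroup.closure_mono (Set.image_mono Set.inter_subset_right) hg2
          have h5 : g2⁻¹ * g = 1 := by
            apply inj J hJ
            · exact mul_mem (inv_mem h4) hgJ
            · rw [map_mul, map_inv, hg3, inv_mul_cancel]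
          have h6 : g = g2 := by
            rw [inv_mul_eq_one] at h5; exact h5.symm
          rw [h6]; exact hg2
        · exact le_inf (Subgroup.closure_mono (Set.image_mono Set.inter_subset_left))
            (Subgroup.closure_mono (Set.image_mono Set.inter_subset_right))

end Pool.Agent.HZ
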