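import Pool.Agent.Lib_helper56.HZ.NotDet

namespace Pool.Agent.HZ

/-- The sum `1/p + 1/q + ∑ 1/h_j + ∑ 1/r_j` over all `j < q/2` (with `h_1 = p` counted once), plus
`1/min(h_{q/2}, r_{q/2})` if `q` is even. -/
noncomputable def reducedSum {G : Type*} [Group G] (x : Fin 3 → G) : ℚ :=
  1 / (orderOf (x 0 * x 1) : ℚ) + 1 / (orderOf (x 1 * x 2) : ℚ)
    + ∑ j ∈ Finset.Icc 2 ((orderOf (x 1 * x 2) - 1) / 2), 1 / (orderOf (hole x j) : ℚ)
    + ∑ j ∈ Finset.Icc 1 ((orderOf (x 1 * x 2) - 1) / 2), 1 / (orderOf (zigzag x j) : ℚ)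
    + if Even (orderOf (x 1 * x 2)) then
        1 / ((min (orderOf (hole x (orderOf (x 1 * x 2) / 2)))
          (orderOf (zigzag x (orderOf (x 1 * x 2) / 2))) : ℕ) : ℚ)
      else 0

open Classical in
/-- The reduced tuple: for `j = q/2` only one of the two lengths is kept. -/
noncomputable def dataR {G : Type*} [Group G] (x : Fin 3 → G) : Data where
  p := orderOf (x 0 * x 1)
  q := orderOf (x 1 * x 2)
  h := fun j => if 2 * j = orderOf (x 1 * x 2) ∧ ¬ Even (orderOf (zigzag x j)) then none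
    else some (orderOf (hole x j))
  r := fun j => if 2 * j = orderOf (x 1 * x 2) ∧ Even (orderOf (zigzag x j)) then none
    else some (orderOf (zigzag x j))

theorem compat_dataR {G : Type*} [Group G] (x : Fin 3 → G) : Compat (dataR x) x := by
  refine ⟨rfl, rfl, ?_, ?_⟩
  · intro j n _ _ h
    simp only [dataR] at h
    split_ifs at h
    simpa using h.symm
  · intro j n _ _ h
    simp only [dataR] at h
    split_ifs at h
    simpa using h.symm

theorem reduced_le {G : Type*} [Group G] [Finite G] (x : Fin 3 → G)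
    (hq : 2 ≤ orderOf (x 1 * x 2)) : lengthSum (dataR x) ≤ reducedSum x := by
  classical
  unfold lengthSum reducedSum
  show 1 / (orderOf (x 0 * x 1) : ℚ) + 1 / (orderOf (x 1 * x 2) : ℚ)
    + ∑ j ∈ Finset.Icc 2 (orderOf (x 1 * x 2) / 2), recip ((dataR x).h j)
    + ∑ j ∈ Finset.Icc 1 (orderOf (x 1 * x 2) / 2), recip ((dataR x).r j) ≤ _
  set q := orderOf (x 1 * x 2) with hqdef
  have h1 : ∀ j, 2 * j ≠ q → recip ((dataR x).h j) = 1 / (orderOf (hole x j) : ℚ) := by
    intro j hj
    have : (dataR x).h j = some (orderOf (hole x j)) := by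
      simp only [dataR]
      rw [if_neg]
      rintro ⟨h, -⟩; exact hj h
    rw [this]; rfl
  have h2 : ∀ j, 2 * j ≠ q → recip ((dataR x).r j) = 1 / (orderOf (zigzag x j) : ℚ) := by
    intro j hj
    have : (dataR x).r j = some (orderOf (zigzag x j)) := by
      simp only [dataR]
      rw [if_neg]
      rintro ⟨h, -⟩; exact hj h
    rw [this]; rfl
  have s1 : ∑ j ∈ Finset.Icc 2 ((q - 1) / 2), recip ((dataR x).h j)
      = ∑ j ∈ Finset.Icc 2 ((q - 1) / 2), 1 / (orderOf (hole x j) : ℚ) := by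
    refine Finset.sum_congr rfl (fun j hj => h1 j ?_)
    rw [Finset.mem_Icc] at hj; omega
  have s2 : ∑ j ∈ Finset.Icc 1 ((q - 1) / 2), recip ((dataR x).r j)
      = ∑ j ∈ Finset.Icc 1 ((q - 1) / 2), 1 / (orderOf (zigzag x j) : ℚ) := by
    refine Finset.sum_congr rfl (fun j hj => h2 j ?_)
    rw [Finset.mem_Icc] at hj; omega
  by_cases he : Even q
  · rw [if_pos he]
    obtain ⟨k, hk⟩ := he
    have hk1 : q / 2 = k := by omega
    have hk2 : (q - 1) / 2 = k - 1 := by omega
    have hk3 : 1 ≤ k := by omega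
    rw [hk2] at s1 s2
    rw [hk1, hk2]
    have hnn : ∀ e : Option ℕ, 0 ≤ recip e := by
      intro e
      rcases e with _ | n
      · exact le_refl _
      · show (0 : ℚ) ≤ 1 / (n : ℚ)
        positivity
    have t1 : ∑ j ∈ Finset.Icc 2 k, recip ((dataR x).h j)
        ≤ recip ((dataR x).h k) + ∑ j ∈ Finset.Icc 2 (k - 1), recip ((dataR x).h j) := by
      by_cases hk4 : 2 ≤ k
      · have : Finset.Icc 2 k = insert k (Finset.Icc 2 (k - 1)) := by
          ext j; simp only [Finset.mem_insert, Finset.mem_Icc]; omega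
        rw [this, Finset.sum_insert (by simp only [Finset.mem_Icc]; omega)]
      · have : Finset.Icc 2 k = ∅ := by
          ext j; simp only [Finset.mem_Icc, Finset.notMem_empty, iff_false]; omega
        rw [this, Finset.sum_empty]
        exact add_nonneg (hnn _) (Finset.sum_nonneg (fun _ _ => hnn _))
    have t2 : ∑ j ∈ Finset.Icc 1 k, recip ((dataR x).r j)
        = recip ((dataR x).r k) + ∑ j ∈ Finset.Icc 1 (k - 1), recip ((dataR x).r j) := by
      have : Finset.Icc 1 k = insert k (Finset.Icc 1 (k - 1)) := by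
        ext j; simp only [Finset.mem_insert, Finset.mem_Icc]; omega
      rw [this, Finset.sum_insert (by simp only [Finset.mem_Icc]; omega)]
    have hpos1 : 0 < orderOf (hole x k) := orderOf_pos _
    have hpos2 : 0 < orderOf (zigzag x k) := orderOf_pos _
    have t3 : recip ((dataR x).h k) + recip ((dataR x).r k)
        ≤ 1 / ((min (orderOf (hole x k)) (orderOf (zigzag x k)) : ℕ) : ℚ) := by
      have hminpos : (0 : ℚ) < ((min (orderOf (hole x k)) (orderOf (zigzag x k)) : ℕ) : ℚ) := by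
        exact_mod_cast lt_min hpos1 hpos2
      by_cases hev : Even (orderOf (zigzag x k))
      · have e1 : (dataR x).h k = some (orderOf (hole x k)) := by
          simp only [dataR]
          rw [if_neg]
          rintro ⟨-, h⟩; exact h hev
        have e2 : (dataR x).r k = none := by
          simp only [dataR]
          rw [if_pos]
          exact ⟨by omega, hev⟩
        rw [e1, e2]
        show 1 / (orderOf (hole x k) : ℚ) + 0 ≤ _
        rw [add_zero]
        apply one_div_le_one_div_of_le hminpos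
        exact_mod_cast min_le_left _ _
      · have e1 : (dataR x).h k = none := by
          simp only [dataR]
          rw [if_pos]
          exact ⟨by omega, hev⟩
        have e2 : (dataR x).r k = some (orderOf (zigzag x k)) := by
          simp only [dataR]
          rw [if_neg]
          rintro ⟨-, h⟩; exact hev h
        rw [e1, e2]
        show 0 + 1 / (orderOf (zigzag x k) : ℚ) ≤ _
        rw [zero_add]
        apply one_div_le_one_div_of_le hminpos
        exact_mod_cast min_le_right _ _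
    rw [s1] at t1
    rw [s2] at t2
    linarith
  · rw [if_neg he]
    have hk : q / 2 = (q - 1) / 2 := by
      rw [Nat.not_even_iff_odd] at he
      obtain ⟨k, hk⟩ := he
      omega
    rw [hk, s1, s2, add_zero]

section Mid

variable {G : Type*} [Group G] {y : Fin 3 → G}

theorem zig_eq (h2 : y 2 * y 2 = 1) {j : ℕ} (hj : 1 ≤ j) : zigzag y j = hole y j * y 2 := by
  obtain ⟨m, rfl⟩ : ∃ m, j = m + 1 := ⟨j - 1, by omega⟩
  unfold zigzag hole
  rw [Nat.add_sub_cancel, mul_assoc (y 0), mul_assoc (y 0)]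
  congr 1
  induction m with
  | zero => simp
  | succ n ih =>
    have := ih (by omega)
    rw [pow_succ' (y 1 * y 2) (n + 1), this, pow_succ' (y 2 * y 1) n]
    simp only [mul_assoc]

theorem comm_mid (h1 : y 1 * y 1 = 1) (h2 : y 2 * y 2 = 1) (h02 : (y 0 * y 2) ^ 2 = 1)
    (h0 : y 0 * y 0 = 1) {j : ℕ} (hj : 1 ≤ j) (hq : (y 1 * y 2) ^ (2 * j) = 1) :
    Commute (hole y j) (y 2) := by
  have h0' : (y 0)⁻¹ = y 0 := inv_eq_of_mul_eq_one_left h0
  have h1' : (y 1)⁻¹ = y 1 := inv_eq_of_mul_eq_one_left h1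
  have h2' : (y 2)⁻¹ = y 2 := inv_eq_of_mul_eq_one_left h2
  have c0 : Commute (y 0) (y 2) := by
    have : y 0 * y 2 = (y 0 * y 2)⁻¹ := by
      rw [eq_comm]; apply inv_eq_of_mul_eq_one_left; rw [← _root_.sq]; exact h02
    rw [mul_inv_rev, h0', h2'] at this
    exact this
  have hb : zigzag y j = y 0 * (y 1 * y 2) ^ j := rfl
  have e1 : y 1 * (y 2 * y 1) ^ (j - 1) * y 2 = (y 1 * y 2) ^ j := by
    have := zig_eq h2 hj
    rw [hb] at this
    unfold hole at this
    rw [mul_assoc (y 0), mul_assoc (y 0)] at this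
    exact (mul_left_cancel this).symm
  have e2 : y 2 * (y 1 * (y 2 * y 1) ^ (j - 1)) = (y 2 * y 1) ^ j := by
    obtain ⟨m, rfl⟩ : ∃ m, j = m + 1 := ⟨j - 1, by omega⟩
    rw [Nat.add_sub_cancel, pow_succ' _ m, mul_assoc]
  have e3 : (y 2 * y 1) ^ j = (y 1 * y 2) ^ j := by
    have i1 : (y 2 * y 1) = (y 1 * y 2)⁻¹ := by rw [mul_inv_rev, h1', h2']
    rw [i1, inv_pow]
    apply inv_eq_of_mul_eq_one_left
    rw [← pow_add, ← two_mul]; exact hq
  have c1 : Commute (y 1 * (y 2 * y 1) ^ (j - 1)) (y 2) := by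
    show y 1 * (y 2 * y 1) ^ (j - 1) * y 2 = y 2 * (y 1 * (y 2 * y 1) ^ (j - 1))
    rw [e1, e2, e3]
  have : hole y j = y 0 * (y 1 * (y 2 * y 1) ^ (j - 1)) := by unfold hole; rw [mul_assoc]
  rw [this]
  exact c0.mul_left c1

theorem even_pow_mid {a b : G} (hab : Commute a b) (hb : b * b = 1) {m : ℕ} (hm : Even m) :
    (a * b) ^ m = a ^ m := by
  obtain ⟨l, rfl⟩ := hm
  rw [hab.mul_pow]
  have : b ^ (l + l) = 1 := by rw [← two_mul, pow_mul, _root_.sq, hb, one_pow]
  rw [this, mul_one]

theorem odd_pow_mid {a b : G} (hab : Commute a b) (hb : b * b = 1) {m : ℕ} (hm : ¬ Even m) :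
    (a * b) ^ m = a ^ m * b := by
  rw [Nat.not_even_iff_odd] at hm
  obtain ⟨l, rfl⟩ := hm
  rw [hab.mul_pow]
  have : b ^ (2 * l + 1) = b := by rw [pow_succ, pow_mul, _root_.sq, hb, one_pow, one_mul]
  rw [this]

end Mid

/-- The dropped length is determined by the other one. -/
theorem mid_lengths {G G' : Type*} [Group G] [Group G'] [Finite G] {x : Fin 3 → G}
    {x' : Fin 3 → G'} (hx : IsRegularPolyhedron x) (hx' : IsRegularPolyhedron x') (π : G' →* G)
    (hπ : ∀ i, π (x' i) = x i) {j : ℕ} (hj : 1 ≤ j) (hjq : 2 * j = orderOf (x 1 * x 2))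
    (hq : orderOf (x' 1 * x' 2) = orderOf (x 1 * x 2)) :
    (Even (orderOf (zigzag x j)) → orderOf (hole x' j) = orderOf (hole x j) →
      orderOf (zigzag x' j) = orderOf (zigzag x j)) ∧
    (¬ Even (orderOf (zigzag x j)) → orderOf (zigzag x' j) = orderOf (zigzag x j) →
      orderOf (hole x' j) = orderOf (hole x j)) := by
  have sqx : ∀ i, x i * x i = 1 := by
    intro i
    have := pow_orderOf_eq_one (x i)
    rwa [hx.invol i, _root_.sq] at this
  have sqx' : ∀ i, x' i * x' i = 1 := by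
    intro i
    have := pow_orderOf_eq_one (x' i)
    rwa [hx'.invol i, _root_.sq] at this
  have c : Commute (hole x j) (x 2) :=
    comm_mid (sqx 1) (sqx 2) hx.comm (sqx 0) hj (by rw [hjq]; exact pow_orderOf_eq_one _)
  have c' : Commute (hole x' j) (x' 2) :=
    comm_mid (sqx' 1) (sqx' 2) hx'.comm (sqx' 0) hj (by
      rw [hjq, ← hq]; exact pow_orderOf_eq_one _)
  have z : zigzag x j = hole x j * x 2 := zig_eq (sqx 2) hj
  have z' : zigzag x' j = hole x' j * x' 2 := zig_eq (sqx' 2) hj
  have hfun : (fun i => π (x' i)) = x := funext hπ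
  have d1 : orderOf (hole x j) ∣ orderOf (hole x' j) := by
    have := orderOf_map_dvd π (hole x' j)
    rwa [map_hole, hfun] at this
  have d2 : orderOf (zigzag x j) ∣ orderOf (zigzag x' j) := by
    have := orderOf_map_dvd π (zigzag x' j)
    rwa [map_zigzag, hfun] at this
  constructor
  · intro hev h1
    refine Nat.dvd_antisymm ?_ d2
    apply orderOf_dvd_of_pow_eq_one
    have e1 : hole x j ^ orderOf (zigzag x j) = 1 := by
      rw [← even_pow_mid c (sqx 2) hev, ← z]; exact pow_orderOf_eq_one _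
    have e2 : hole x' j ^ orderOf (zigzag x j) = 1 := by
      apply orderOf_dvd_iff_pow_eq_one.1
      rw [h1]; exact orderOf_dvd_of_pow_eq_one e1
    nth_rewrite 1 [z']
    rw [even_pow_mid c' (sqx' 2) hev]; exact e2
  · intro hodd h1
    refine Nat.dvd_antisymm ?_ d1
    apply orderOf_dvd_of_pow_eq_one
    have hx2 : x 2 ≠ 1 := (poly_ne hx).1 2
    have hev : Even (orderOf (hole x j)) := by
      by_contra hcon
      have e1 : zigzag x j ^ orderOf (hole x j) = x 2 := by
        rw [z, odd_pow_mid c (sqx 2) hcon, pow_orderOf_eq_one, one_mul]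
      have e2 : zigzag x j ^ (2 * orderOf (hole x j)) = 1 := by
        rw [mul_comm, pow_mul, e1, _root_.sq, sqx 2]
      have e3 := orderOf_dvd_of_pow_eq_one e2
      have e4 : Nat.Coprime (orderOf (zigzag x j)) 2 := by
        rw [Nat.coprime_two_right]
        exact Nat.not_even_iff_odd.1 hodd
      have e5 := e4.dvd_of_dvd_mul_left e3
      have e6 := orderOf_dvd_iff_pow_eq_one.1 e5
      rw [e1] at e6
      exact hx2 e6
    have e1 : zigzag x j ^ orderOf (hole x j) = 1 := by
      rw [z, even_pow_mid c (sqx 2) hev]; exact pow_orderOf_eq_one _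
    have e2 : zigzag x' j ^ orderOf (hole x j) = 1 := by
      apply orderOf_dvd_iff_pow_eq_one.1
      rw [h1]; exact orderOf_dvd_of_pow_eq_one e1
    rw [z', even_pow_mid c' (sqx' 2) hev] at e2
    exact e2

theorem same_of_dataR {G G' : Type*} [Group G] [Group G'] [Finite G] {x : Fin 3 → G}
    (hx : IsRegularPolyhedron x) (f : Gam (dataR x) →* G') (π : G' →* G)
    (hf : ∀ i, π (f (gen (dataR x) i)) = x i) (hs : Function.Surjective f) :
    IsRegularPolyhedron (fun i => f (gen (dataR x) i)) ∧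
      SameLengths x (fun i => f (gen (dataR x) i)) := by
  classical
  obtain ⟨a1, a2, a3, a4, a5⟩ := image_lengths hx (compat_dataR x) f π hf hs
  refine ⟨a1, a2, a3, ?_, ?_⟩
  · intro j hj1 hj2
    by_cases hc : 2 * j = orderOf (x 1 * x 2) ∧ ¬ Even (orderOf (zigzag x j))
    · refine (mid_lengths hx a1 π hf (by omega) hc.1 a3).2 hc.2 ?_
      refine a5 j (orderOf (zigzag x j)) (by omega) hj2 ?_
      simp only [dataR]
      rw [if_neg]
      rintro ⟨-, h⟩; exact hc.2 h
    · refine a4 j (orderOf (hole x j)) hj1 hj2 ?_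
      simp only [dataR]
      rw [if_neg hc]
  · intro j hj1 hj2
    by_cases hc : 2 * j = orderOf (x 1 * x 2) ∧ Even (orderOf (zigzag x j))
    · refine (mid_lengths hx a1 π hf (by omega) hc.1 a3).1 hc.2 ?_
      by_cases hj : 2 ≤ j
      · refine a4 j (orderOf (hole x j)) hj hj2 ?_
        simp only [dataR]
        rw [if_neg]
        rintro ⟨-, h⟩; exact h hc.2
      · have : j = 1 := by omega
        subst this
        simp only [hole, Nat.sub_self, pow_zero, mul_one]
        exact a2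
    · refine a5 j (orderOf (zigzag x j)) hj1 hj2 ?_
      simp only [dataR]
      rw [if_neg hc]

/-- Theorem C. -/
theorem not_determined.{u} {G : Type u} [Group G] [Finite G] {x : Fin 3 → G}
    (hx : IsRegularPolyhedron x) (hS : reducedSum x ≤ 1 / 2) :
    (IsRegularPolyhedron (gen (dataOf x)) ∧ SameLengths x (gen (dataOf x)) ∧
      Infinite (Gam (dataOf x))) ∧
    ∀ N : ℕ, ∃ (G' : Type u) (_ : Group G') (x' : Fin 3 → G'), Finite G' ∧ N < Nat.card G' ∧
      IsRegularPolyhedron x' ∧ SameLengths x x' ∧ ∃ π : G' →* G, ∀ i, π (x' i) = x i := by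
  have hq2 : 2 ≤ orderOf (x 1 * x 2) := by
    have h1 : 0 < orderOf (x 1 * x 2) := orderOf_pos _
    have h2 : orderOf (x 1 * x 2) ≠ 1 := by
      rw [Ne, orderOf_eq_one_iff]; exact (poly_ne hx).2.2
    omega
  have hS' : lengthSum (dataR x) ≤ 1 / 2 := le_trans (reduced_le x hq2) hS
  obtain ⟨b1, b2, b3, b4, b5⟩ := image_lengths hx (compat_dataOf x) (MonoidHom.id _)
    (toPoly hx (compat_dataOf x)) (toPoly_gen hx (compat_dataOf x)) (fun y => ⟨y, rfl⟩)
  have many : ∀ N : ℕ, ∃ (G' : Type u) (_ : Group G') (x' : Fin 3 → G'), Finite G' ∧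
      N < Nat.card G' ∧ IsRegularPolyhedron x' ∧ SameLengths x x' ∧
      ∃ π : G' →* G, ∀ i, π (x' i) = x i := by
    intro N
    obtain ⟨G', iG, iF, f, π, hf, hπ, hN⟩ := many_covers hx (compat_dataR x) hS' N
    obtain ⟨a1, a2⟩ := same_of_dataR hx f π hπ hf
    exact ⟨G', iG, fun i => f (gen (dataR x) i), iF, hN, a1, a2, π, hπ⟩
  refine ⟨⟨b1, ⟨b2, b3, fun j h1 h2 => b4 j _ h1 h2 rfl, fun j h1 h2 => b5 j _ h1 h2 rfl⟩, ?_⟩,
    many⟩
  rw [← not_finite_iff_infinite]
  intro hfin
  obtain ⟨G', iG, x', iF, hN, a1, a2, π, hπ⟩ := many (Nat.card (Gam (dataOf x)))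
  -- `Γ` maps onto `G'`
  have hc : Compat (dataOf x) x' := by
    obtain ⟨s1, s2, s3, s4⟩ := a2
    refine ⟨s1.symm, s2.symm, ?_, ?_⟩
    · intro j n h1 h2 h
      rw [s3 j h1 h2]
      simpa [dataOf] using h.symm
    · intro j n h1 h2 h
      rw [s4 j h1 h2]
      simpa [dataOf] using h.symm
  have hsurj : Function.Surjective (toPoly a1 hc) := by
    rw [← MonoidHom.range_eq_top, eq_top_iff, ← a1.gens, Subgroup.closure_le]
    rintro _ ⟨i, rfl⟩
    exact ⟨gen _ i, toPoly_gen a1 hc i⟩
  have := Nat.card_le_card_of_surjective _ hsurj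
  omega

end Pool.Agent.HZ
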