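import Pool.Agent.Lib_helper56.HZ.Main

namespace Pool.Agent.HZ

open Module

/-- `o * ℓ^v` where `ℓ^v` is the exact power of `ℓ` dividing `n / o`. -/
def topOrder (l n o : ℕ) : ℕ := o * l ^ (n / o).factorization l

/-- `1 / topOrder` for a prescribed length, and `0` if nothing is prescribed. -/
def recipTop (l : ℕ) : Option ℕ → ℕ → ℚ
  | none, _ => 0
  | some n, o => 1 / (topOrder l n o : ℚ)

/-- The sum of the reciprocals of the top orders. -/
noncomputable def towerSum (l : ℕ) (T : Data) {Q : Type*} [Group Q] (x : Fin 3 → Q) : ℚ :=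
  1 / (topOrder l T.p (orderOf (x 0 * x 1)) : ℚ) + 1 / (topOrder l T.q (orderOf (x 1 * x 2)) : ℚ)
    + ∑ j ∈ Finset.Icc 2 (T.q / 2), recipTop l (T.h j) (orderOf (hole x j))
    + ∑ j ∈ Finset.Icc 1 (T.q / 2), recipTop l (T.r j) (orderOf (zigzag x j))

/-- All prescribed lengths are at least two. -/
def Valid (T : Data) : Prop :=
  2 ≤ T.p ∧ 2 ≤ T.q ∧ (∀ j n, 2 ≤ j → j ≤ T.q / 2 → T.h j = some n → 2 ≤ n) ∧
    (∀ j n, 1 ≤ j → j ≤ T.q / 2 → T.r j = some n → 2 ≤ n)

theorem top_le {l n o o' b : ℕ} (hl : l.Prime) (hn : n ≠ 0) (ho : 0 < o) (h1 : o ∣ o')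
    (h2 : o' ∣ o * l ^ b) (h3 : o' ∣ n) (h4 : ¬ l ∣ n / o') : topOrder l n o = o' := by
  obtain ⟨c, rfl⟩ := h1
  have h5 : c ∣ l ^ b := Nat.dvd_of_mul_dvd_mul_left ho h2
  obtain ⟨e, -, rfl⟩ := (Nat.dvd_prime_pow hl).1 h5
  obtain ⟨m, rfl⟩ := h3
  have hpos : 0 < o * l ^ e := Nat.mul_pos ho (pow_pos hl.pos e)
  rw [Nat.mul_div_cancel_left _ hpos] at h4
  have hm : m ≠ 0 := by rintro rfl; exact hn (by simp)
  unfold topOrder
  congr 2
  rw [mul_assoc, Nat.mul_div_cancel_left _ ho, Nat.factorization_mul (pow_pos hl.pos e).ne' hm,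
    hl.factorization_pow]
  simp [Nat.factorization_eq_zero_of_not_dvd h4]

theorem cost_le_top (l : ℕ) [Fact l.Prime] {Q : Type*} [Group Q] [Finite Q] {n o b : ℕ}
    (hn : n ≠ 0) (s : Q) (ho : 0 < o) (h1 : o ∣ orderOf s) (h2 : orderOf s ∣ o * l ^ b)
    (h3 : orderOf s ∣ n) : cost (ZMod l) n s ≤ 1 / 2 * (1 / (topOrder l n o : ℚ)) := by
  have hl : l.Prime := Fact.out
  unfold cost
  split_ifs with h
  · positivity
  · have h4 : ¬ l ∣ n / orderOf s := by
      rwa [ZMod.natCast_eq_zero_iff] at h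
    rw [top_le hl hn ho h1 h2 h3 h4]
    have hpos : 0 < orderOf s := orderOf_pos s
    have : (orderOf s : ℚ) ≠ 0 := by exact_mod_cast hpos.ne'
    apply le_of_eq; field_simp

/-- Theorem B. -/
theorem tower (T : Data) (hT : Valid T) {Q : Type*} [Group Q] [Finite Q] (φ : Gam T →* Q)
    (h1 : ∀ i, φ (gen T i) ≠ 1) (h02 : φ (gen T 0) * φ (gen T 2) ≠ 1) (l : ℕ) (hl : l.Prime)
    (hS : towerSum l T (fun i => φ (gen T i)) ≤ 1 / 2) : Infinite (Gam T) := by
  classical
  have : Fact l.Prime := ⟨hl⟩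
  rw [← not_finite_iff_infinite]
  intro hfin
  obtain ⟨hp2, hq2, hh2, hr2⟩ := hT
  -- minimal normal subgroup of `l`-power index in the kernel
  let P : Subgroup (Gam T) → Prop := fun M => M.Normal ∧ M ≤ φ.ker ∧ ∃ b, M.relIndex φ.ker = l ^ b
  have hne : ∃ M, P M := ⟨φ.ker, inferInstance, le_refl _, 0, by simp⟩
  have hmin : ∃ M, P M ∧ ∀ M', P M' → Nat.card M ≤ Nat.card M' := by
    let s : Set ℕ := {c | ∃ M, P M ∧ Nat.card M = c}
    have hs : s.Nonempty := by
      obtain ⟨M, hM⟩ := hne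
      exact ⟨_, M, hM, rfl⟩
    obtain ⟨M, hM, hc⟩ := Nat.sInf_mem hs
    refine ⟨M, hM, fun M' hM' => ?_⟩
    rw [hc]
    exact Nat.sInf_le ⟨M', hM', rfl⟩
  obtain ⟨M, ⟨hMn, hMle, b, hMb⟩, hMmin⟩ := hmin
  -- the quotient
  let π : Gam T →* Gam T ⧸ M := QuotientGroup.mk' M
  have hπ : Function.Surjective π := QuotientGroup.mk'_surjective M
  have hker : ∀ g, π g = 1 → φ g = 1 := by
    intro g hg
    have : g ∈ M := (QuotientGroup.eq_one_iff g).1 hg
    exact hMle this
  -- orders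
  have hord : ∀ w : Gam T, orderOf (φ w) ∣ orderOf (π w) := by
    intro w
    apply orderOf_dvd_of_pow_eq_one
    rw [← map_pow]
    apply hker
    rw [map_pow, pow_orderOf_eq_one]
  have hord2 : ∀ w : Gam T, orderOf (π w) ∣ orderOf (φ w) * l ^ b := by
    intro w
    apply orderOf_dvd_of_pow_eq_one
    rw [← map_pow, pow_mul]
    have h3 : w ^ orderOf (φ w) ∈ φ.ker := by
      rw [MonoidHom.mem_ker, map_pow, pow_orderOf_eq_one]
    have h4 : (⟨w ^ orderOf (φ w), h3⟩ : φ.ker) ^ (M.subgroupOf φ.ker).index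
        ∈ M.subgroupOf φ.ker := Subgroup.pow_index_mem _ _
    have h5 : (M.subgroupOf φ.ker).index = l ^ b := hMb
    rw [h5, Subgroup.mem_subgroupOf] at h4
    exact (QuotientGroup.eq_one_iff _).2 h4
  have hrelQ := lift_rel T π
  have hwd : ∀ (w : FreeGroup (Fin 3)) (n : ℕ), w ^ n ∈ rels T →
      orderOf (FreeGroup.lift (fun i => π (gen T i)) w) ∣ n := by
    intro w n hw
    apply orderOf_dvd_of_pow_eq_one
    rw [← map_pow]; exact hrelQ _ hw
  have hcost : ∀ (w : Gam T) (n : ℕ), n ≠ 0 → orderOf (π w) ∣ n →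
      cost (ZMod l) n (π w) ≤ 1 / 2 * (1 / (topOrder l n (orderOf (φ w)) : ℚ)) := by
    intro w n hn hw
    exact cost_le_top l hn (π w) (orderOf_pos _) (hord w) (hord2 w) hw
  have hk : 1 ≤ T.q / 2 := by omega
  have htot : totalCost (ZMod l) T (fun i => π (gen T i)) ≤ 1 / 4 := by
    have hS' : 1 / 2 * towerSum l T (fun i => φ (gen T i)) ≤ 1 / 4 := by linarith
    refine le_trans ?_ hS'
    unfold totalCost towerSum
    rw [Icc_split hk]
    have a1 : cost (ZMod l) T.q (π (gen T 1) * π (gen T 2))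
        ≤ 1 / 2 * (1 / (topOrder l T.q (orderOf (φ (gen T 1) * φ (gen T 2))) : ℚ)) := by
      have := hcost (gen T 1 * gen T 2) T.q (by omega) (by
        have := hwd (FreeGroup.of 1 * FreeGroup.of 2) T.q (Or.inr (Or.inr (Or.inl rfl)))
        simpa using this)
      simpa only [map_mul] using this
    have a2 : costO (ZMod l) (hh T 1) (hole (fun i => π (gen T i)) 1)
        ≤ 1 / 2 * (1 / (topOrder l T.p (orderOf (φ (gen T 0) * φ (gen T 1))) : ℚ)) := by
      have h3 : hh T 1 = some T.p := by simp [hh]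
      have h4 : hole (fun i => π (gen T i)) 1 = π (gen T 0) * π (gen T 1) := by simp [hole]
      rw [h3, h4]
      show cost (ZMod l) T.p _ ≤ _
      have := hcost (gen T 0 * gen T 1) T.p (by omega) (by
        have := hwd (FreeGroup.of 0 * FreeGroup.of 1) T.p (Or.inr (Or.inl rfl))
        simpa using this)
      simpa only [map_mul] using this
    have a3 : ∑ j ∈ Finset.Icc 2 (T.q / 2), costO (ZMod l) (hh T j) (hole (fun i => π (gen T i)) j)
        ≤ ∑ j ∈ Finset.Icc 2 (T.q / 2),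
          1 / 2 * recipTop l (T.h j) (orderOf (hole (fun i => φ (gen T i)) j)) := by
      refine Finset.sum_le_sum (fun j hj => ?_)
      rw [Finset.mem_Icc] at hj
      have hne' : j ≠ 1 := by omega
      simp only [hh, if_neg hne']
      rcases hn : T.h j with _ | n
      · simp [costO, recipTop]
      · show cost (ZMod l) n _ ≤ 1 / 2 * (1 / (topOrder l n _ : ℚ))
        have := hcost (hole (gen T) j) n (by have := hh2 j n hj.1 hj.2 hn; omega) (by
          have := hwd (hole FreeGroup.of j) n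
            (Or.inr (Or.inr (Or.inr (Or.inr (Or.inl ⟨j, n, hj.1, hj.2, hn, rfl⟩)))))
          rw [map_hole] at this ⊢
          simpa using this)
        simpa only [map_hole] using this
    have a4 : ∑ j ∈ Finset.Icc 1 (T.q / 2), costO (ZMod l) (T.r j) (zigzag (fun i => π (gen T i)) j)
        ≤ ∑ j ∈ Finset.Icc 1 (T.q / 2),
          1 / 2 * recipTop l (T.r j) (orderOf (zigzag (fun i => φ (gen T i)) j)) := by
      refine Finset.sum_le_sum (fun j hj => ?_)
      rw [Finset.mem_Icc] at hj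
      rcases hn : T.r j with _ | n
      · simp [costO, recipTop]
      · show cost (ZMod l) n _ ≤ 1 / 2 * (1 / (topOrder l n _ : ℚ))
        have := hcost (zigzag (gen T) j) n (by have := hr2 j n hj.1 hj.2 hn; omega) (by
          have := hwd (zigzag FreeGroup.of j) n
            (Or.inr (Or.inr (Or.inr (Or.inr (Or.inr ⟨j, n, hj.1, hj.2, hn, rfl⟩)))))
          rw [map_zigzag] at this ⊢
          simpa using this)
        simpa only [map_zigzag] using this
    rw [← Finset.mul_sum] at a3 a4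
    linarith
  obtain ⟨z, hz, g, hg, hgv⟩ := exists_nontrivial (ZMod l) T hq2 π hπ
    (fun i hi => h1 i (hker _ hi))
    (fun hi => h02 (by rw [← map_mul] at hi ⊢; exact hker _ hi)) htot
  -- the smaller subgroup
  set Ψ := psi T (fun i => π (gen T i)) z hz with hΨ
  have hΨg : ∀ g, (Ψ g).g = π g := fun g => psi_g T π z hz g
  have hkle : Ψ.ker ≤ M := by
    intro y hy
    rw [MonoidHom.mem_ker] at hy
    have : π y = 1 := by rw [← hΨg, hy]; rfl
    exact (QuotientGroup.eq_one_iff y).1 this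
  have hgM : g ∈ M := (QuotientGroup.eq_one_iff g).1 hg
  have hgK : g ∉ Ψ.ker := by
    intro h
    rw [MonoidHom.mem_ker] at h
    apply hgv
    rw [h]; rfl
  have hpow : ∀ y ∈ M, y ^ l ∈ Ψ.ker := by
    intro y hy
    rw [MonoidHom.mem_ker, map_pow]
    have h3 : (Ψ y).g = 1 := by rw [hΨg]; exact (QuotientGroup.eq_one_iff y).2 hy
    refine Aff.ext_v_zero _ (by rw [Aff.pow_g, h3, one_pow]) (fun x => ?_)
    rw [Aff.pow_v_of_g_one _ h3]
    simp
  have hpg : IsPGroup l (M ⧸ (Ψ.ker.subgroupOf M)) := by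
    intro y
    refine ⟨1, ?_⟩
    obtain ⟨y, rfl⟩ := QuotientGroup.mk_surjective y
    rw [pow_one, ← QuotientGroup.mk_pow, QuotientGroup.eq_one_iff, Subgroup.mem_subgroupOf]
    exact hpow y.1 y.2
  obtain ⟨e, he⟩ := (IsPGroup.iff_card).1 hpg
  have hrel : Ψ.ker.relIndex M = l ^ e := he
  have hP : P Ψ.ker := by
    refine ⟨inferInstance, le_trans hkle hMle, e + b, ?_⟩
    rw [← Subgroup.relIndex_mul_relIndex _ _ _ hkle hMle, hrel, hMb, pow_add]
  have hc := hMmin _ hP
  have heq : Ψ.ker = M := Subgroup.eq_of_le_of_card_ge hkle hc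
  exact hgK (heq.ge hgM)

end Pool.Agent.HZ
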