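import Pool.Agent.Lib_helper56.HZ.Tower

namespace Pool.Agent.HZ

/-- The reciprocal of the largest power of two dividing a prescribed length. -/
def recipTwo : Option ℕ → ℚ
  | none => 0
  | some n => 1 / (2 ^ n.factorization 2 : ℚ)

/-- The sum of the reciprocals of the 2-parts of all prescribed lengths. -/
def twoSum (T : Data) : ℚ :=
  recipTwo (some T.p) + recipTwo (some T.q) + ∑ j ∈ Finset.Icc 2 (T.q / 2), recipTwo (T.h j)
    + ∑ j ∈ Finset.Icc 1 (T.q / 2), recipTwo (T.r j)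

theorem recipTwo_nonneg (e : Option ℕ) : 0 ≤ recipTwo e := by
  rcases e with _ | n
  · exact le_refl _
  · show (0 : ℚ) ≤ 1 / (2 ^ n.factorization 2 : ℚ)
    positivity

theorem even_of_recipTwo {n : ℕ} (h : recipTwo (some n) ≤ 1 / 2) : 2 ∣ n := by
  by_contra hn
  have h0 : n.factorization 2 = 0 := Nat.factorization_eq_zero_of_not_dvd hn
  have h1 : recipTwo (some n) = 1 := by
    show (1 : ℚ) / (2 ^ n.factorization 2 : ℚ) = 1
    rw [h0]; norm_num
  rw [h1] at h; norm_num at h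

/-- The three generators of the elementary abelian group of order eight. -/
def cx (i : Fin 3) : Multiplicative (Fin 3 → ZMod 2) := Multiplicative.ofAdd (Pi.single i 1)

theorem cx_sq (y : Multiplicative (Fin 3 → ZMod 2)) : y ^ 2 = 1 := by
  apply Multiplicative.toAdd.injective
  rw [toAdd_pow, toAdd_one]
  funext i
  rw [Pi.smul_apply, Pi.zero_apply, two_nsmul]
  exact CharTwo.add_self_eq_zero _

theorem cx_even (y : Multiplicative (Fin 3 → ZMod 2)) {n : ℕ} (h : 2 ∣ n) : y ^ n = 1 := by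
  obtain ⟨m, rfl⟩ := h
  rw [pow_mul, cx_sq, one_pow]

/-- coordinates as homs -/
def cc (i : Fin 3) : Multiplicative (Fin 3 → ZMod 2) →* Multiplicative (ZMod 2) :=
  AddMonoidHom.toMultiplicative (Pi.evalAddMonoidHom (fun _ : Fin 3 => ZMod 2) i)

theorem cc_cx (i j : Fin 3) : cc i (cx j) = if i = j then Multiplicative.ofAdd 1 else 1 := by
  fin_cases i <;> fin_cases j <;> rfl

theorem cx_ne {y : Multiplicative (Fin 3 → ZMod 2)} (i : Fin 3)
    (h : cc i y = Multiplicative.ofAdd 1) : y ≠ 1 := by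
  rintro rfl
  rw [map_one] at h
  have := congrArg Multiplicative.toAdd h
  simp at this

theorem cx_ord {y : Multiplicative (Fin 3 → ZMod 2)} (i : Fin 3)
    (h : cc i y = Multiplicative.ofAdd 1) : orderOf y = 2 :=
  orderOf_eq_prime (cx_sq y) (cx_ne i h)

theorem top_two {n : ℕ} (hn : n ≠ 0) (h : 2 ∣ n) : topOrder 2 n 2 = 2 ^ n.factorization 2 := by
  obtain ⟨m, rfl⟩ := h
  have hm : m ≠ 0 := by rintro rfl; exact hn rfl
  unfold topOrder
  rw [Nat.mul_div_cancel_left _ (by norm_num), Nat.factorization_mul (by norm_num) hm,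
    Nat.Prime.factorization Nat.prime_two]
  simp [pow_add]

theorem two_part (T : Data) (hT : Valid T) (hS : twoSum T ≤ 1 / 2) : Infinite (Gam T) := by
  classical
  obtain ⟨hp2, hq2, hh2, hr2⟩ := hT
  have n1 : 0 ≤ ∑ j ∈ Finset.Icc 2 (T.q / 2), recipTwo (T.h j) :=
    Finset.sum_nonneg (fun _ _ => recipTwo_nonneg _)
  have n2 : 0 ≤ ∑ j ∈ Finset.Icc 1 (T.q / 2), recipTwo (T.r j) :=
    Finset.sum_nonneg (fun _ _ => recipTwo_nonneg _)
  have n3 := recipTwo_nonneg (some T.p)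
  have n4 := recipTwo_nonneg (some T.q)
  unfold twoSum at hS
  have ep : 2 ∣ T.p := even_of_recipTwo (by linarith)
  have eq' : 2 ∣ T.q := even_of_recipTwo (by linarith)
  have eh : ∀ j n, 2 ≤ j → j ≤ T.q / 2 → T.h j = some n → 2 ∣ n := by
    intro j n h1 h2 h3
    apply even_of_recipTwo
    rw [← h3]
    have := Finset.single_le_sum (f := fun j => recipTwo (T.h j))
      (fun i _ => recipTwo_nonneg _) (Finset.mem_Icc.2 ⟨h1, h2⟩)
    linarith
  have er : ∀ j n, 1 ≤ j → j ≤ T.q / 2 → T.r j = some n → 2 ∣ n := by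
    intro j n h1 h2 h3
    apply even_of_recipTwo
    rw [← h3]
    have := Finset.single_le_sum (f := fun j => recipTwo (T.r j))
      (fun i _ => recipTwo_nonneg _) (Finset.mem_Icc.2 ⟨h1, h2⟩)
    linarith
  have hrel : ∀ w ∈ rels T, FreeGroup.lift cx w = 1 := by
    rintro w (⟨i, rfl⟩ | rfl | rfl | rfl | ⟨j, n, hj1, hj2, hn, rfl⟩ | ⟨j, n, hj1, hj2, hn, rfl⟩)
    · rw [map_pow]; exact cx_sq _
    · rw [map_pow]; exact cx_even _ ep
    · rw [map_pow]; exact cx_even _ eq'
    · rw [map_pow]; exact cx_sq _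
    · rw [map_pow]; exact cx_even _ (eh j n hj1 hj2 hn)
    · rw [map_pow]; exact cx_even _ (er j n hj1 hj2 hn)
  let φ : Gam T →* Multiplicative (Fin 3 → ZMod 2) := PresentedGroup.toGroup hrel
  have hφ : ∀ i, φ (gen T i) = cx i := fun i => PresentedGroup.toGroup.of hrel
  have o1 : orderOf (cx 0 * cx 1) = 2 := cx_ord 0 (by rw [map_mul, cc_cx, cc_cx]; rfl)
  have o2 : orderOf (cx 1 * cx 2) = 2 := cx_ord 1 (by rw [map_mul, cc_cx, cc_cx]; rfl)
  have o3 : ∀ j, orderOf (hole cx j) = 2 := by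
    intro j
    refine cx_ord 0 ?_
    unfold hole
    rw [map_mul, map_mul, map_pow, map_mul, cc_cx, cc_cx, cc_cx]
    simp
  have o4 : ∀ j, orderOf (zigzag cx j) = 2 := by
    intro j
    refine cx_ord 0 ?_
    unfold zigzag
    rw [map_mul, map_pow, map_mul, cc_cx, cc_cx, cc_cx]
    simp
  refine tower T ⟨hp2, hq2, hh2, hr2⟩ φ ?_ ?_ 2 Nat.prime_two ?_
  · intro i
    rw [hφ]
    exact cx_ne i (by rw [cc_cx]; simp)
  · rw [hφ, hφ]
    exact cx_ne 0 (by rw [map_mul, cc_cx, cc_cx]; rfl)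
  · refine le_trans (le_of_eq ?_) hS
    have hfun : (fun i => φ (gen T i)) = cx := funext hφ
    rw [hfun]
    unfold towerSum
    rw [o1, o2, top_two (by omega) ep, top_two (by omega) eq']
    have s1 : ∑ j ∈ Finset.Icc 2 (T.q / 2), recipTop 2 (T.h j) (orderOf (hole cx j))
        = ∑ j ∈ Finset.Icc 2 (T.q / 2), recipTwo (T.h j) := by
      refine Finset.sum_congr rfl (fun j hj => ?_)
      rw [Finset.mem_Icc] at hj
      rw [o3]
      rcases hn : T.h j with _ | n
      · rfl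
      · show (1 : ℚ) / ((topOrder 2 n 2 : ℕ) : ℚ) = 1 / (2 ^ n.factorization 2 : ℚ)
        have := hh2 j n hj.1 hj.2 hn
        rw [top_two (by omega) (eh j n hj.1 hj.2 hn)]
        push_cast; rfl
    have s2 : ∑ j ∈ Finset.Icc 1 (T.q / 2), recipTop 2 (T.r j) (orderOf (zigzag cx j))
        = ∑ j ∈ Finset.Icc 1 (T.q / 2), recipTwo (T.r j) := by
      refine Finset.sum_congr rfl (fun j hj => ?_)
      rw [Finset.mem_Icc] at hj
      rw [o4]
      rcases hn : T.r j with _ | n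
      · rfl
      · show (1 : ℚ) / ((topOrder 2 n 2 : ℕ) : ℚ) = 1 / (2 ^ n.factorization 2 : ℚ)
        have := hr2 j n hj.1 hj.2 hn
        rw [top_two (by omega) (er j n hj.1 hj.2 hn)]
        push_cast; rfl
    rw [s1, s2]
    show _ = (1 : ℚ) / (2 ^ T.p.factorization 2 : ℚ) + 1 / (2 ^ T.q.factorization 2 : ℚ) + _ + _
    push_cast
    rfl

end Pool.Agent.HZ
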